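import Mathlib
import Pool.Agent.W527.TateDefs
import Pool.Agent.H204R3.CM.Main

/-!
# Weil numbers with few slopes that are exceptional modulo a prime: definitions
-/

namespace Pool.Agent.TH776.FS

open NumberField Module Pool.Agent.H204R3.CM Pool.Agent.W527.TateRing

/-- Two embeddings of the CM field `K` agree on no element of the maximal real subfield except the
rational numbers. -/
def OnlyRat {K F : Type*} [Field K] [NumberField K] [IsCMField K] [Field F] (x y : K →+* F) :
    Prop :=
  ∀ t : K, IsCMField.complexConj K t = t → x t = y t → ∃ q : ℚ, t = q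

/-- The embedding `τ` belongs to the pair of `x` and its conjugate, or to that of `y`
(`cbar x` is the composition of `x` with the complex conjugation of the CM field `K`). -/
def InPairs {K F : Type*} [Field K] [NumberField K] [IsCMField K] [Field F]
    (x y τ : K →+* F) : Prop :=
  τ = x ∨ τ = cbar x ∨ τ = y ∨ τ = cbar y

variable {p m : ℕ} [Fact p.Prime]

/-- The deviations of the slopes from the middle slope: for the embeddings `τ` of the field `K` of
the Weil number `π` in an algebraic closure of `ℚ_p`, `u τ` is `2 v(τ π) - m` up to a common nonzero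
factor; `v` is the valuation with `v(p) = 1`. -/
def IsDev (W : WeilNumber p m) (u : (W.K →+* PadicAlgCl p) → ℤ) : Prop :=
  ∃ κ : ℝ, κ ≠ 0 ∧ ∀ τ : W.K →+* PadicAlgCl p, 2 * (- Real.logb p ‖τ W.π‖) - m = κ * u τ

/-- For some prime number `r` and some choice of the common factor, the deviations `u τ` that are
not divisible by `r` are those of one pair of embeddings, or of two pairs, whose embeddings agree on
no element of the maximal real subfield except the rational numbers. -/
def FewPrimeTo (W : WeilNumber p m) : Prop :=
  ∃ (r : ℕ) (u : (W.K →+* PadicAlgCl p) → ℤ) (x y : W.K →+* PadicAlgCl p), r.Prime ∧ IsDev W u ∧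
    (∃ τ, ¬ (r : ℤ) ∣ u τ) ∧ (∀ τ, ¬ (r : ℤ) ∣ u τ → InPairs x y τ) ∧ (x = y ∨ OnlyRat x y)

/-- For some choice of the common factor, the even deviations `u τ` are those of one pair of
embeddings, or of two pairs, whose embeddings agree on no element of the maximal real subfield except
the rational numbers; in the latter case, if the degree of `K` is four modulo eight, `K` has no real
quadratic subfield. -/
def FewEven (W : WeilNumber p m) : Prop :=
  ∃ (u : (W.K →+* PadicAlgCl p) → ℤ) (x y : W.K →+* PadicAlgCl p), IsDev W u ∧
    (∀ τ, Even (u τ) ↔ InPairs x y τ) ∧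
    (x = y ∨ OnlyRat x y ∧ (finrank ℚ W.K % 8 = 4 →
      ∀ F : IntermediateField ℚ W.K, finrank ℚ F = 2 → IsCM F))

/-- There is an imaginary quadratic subfield `F` of the field `K` of the Weil number `π` such that
`N(π) ^ 2 / p ^ (m [K : F])` is a root of unity, `N(π)` the norm of `π` to `F`. -/
def HasWeil (W : WeilNumber p m) : Prop :=
  ∃ F : IntermediateField ℚ W.K, finrank ℚ F = 2 ∧ IsCM F ∧
    ∃ n : ℕ, 0 < n ∧ Pool.Agent.W527.Norm.unitNorm p m F W.π ^ n = 1

/-- For each `i` there is an automorphism of the field of complex numbers that acts as the complex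
conjugation on the embeddings of the field `K i` and trivially on those of the other fields `K i'`.
For one field this is no condition. -/
def Independent {ι : Type} (W : ι → WeilNumber p m) : Prop :=
  ∀ i, ∃ σ : ℂ ≃+* ℂ,
    (∀ φ : (W i).K →+* ℂ, (σ : ℂ →+* ℂ).comp φ = ComplexEmbedding.conjugate φ) ∧
    ∀ i', i' ≠ i → ∀ φ : (W i').K →+* ℂ, (σ : ℂ →+* ℂ).comp φ = φ

end Pool.Agent.TH776.FS
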