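import Mathlib
import Pool.Agent.W527.TwoPairsTate

/-!
# Relations whose reductions modulo a prime are proportional
-/

set_option linter.unusedSectionVars false
set_option linter.unusedVariables false

namespace Pool.Agent.TH776.FS

open NumberField Module Pool.Agent.H204R3.CM Pool.Agent.H977R3.WN Pool.Agent.W527

noncomputable section

variable {K L : Type*} [Field K] [NumberField K] [IsCMField K] [Field L] [NumberField L]
  [IsGalois ℚ L]

/-- Odd integral functions orthogonal to all translates of `w`. -/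
def IsRel (w c : (K →+* L) → ℤ) : Prop :=
  (∀ φ, c (cbar φ) = - c φ) ∧ ∀ g : L ≃ₐ[ℚ] L, ∑ φ : K →+* L, c φ * w (g • φ) = 0

theorem IsRel.lin {w c c' : (K →+* L) → ℤ} (h : IsRel w c) (h' : IsRel w c') (α β : ℤ) :
    IsRel w (fun φ => α * c φ + β * c' φ) := by
  refine ⟨fun φ => ?_, fun g => ?_⟩
  · simp only [h.1, h'.1]
    ring
  · have h1 : ∀ φ : K →+* L, (α * c φ + β * c' φ) * w (g • φ) =
        α * (c φ * w (g • φ)) + β * (c' φ * w (g • φ)) := fun φ => by ring
    simp only [h1, Finset.sum_add_distrib, ← Finset.mul_sum, h.2 g, h'.2 g, mul_zero, add_zero]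

theorem IsRel.div {w c : (K →+* L) → ℤ} {r : ℤ} (hr : r ≠ 0)
    (h : IsRel w (fun φ => r * c φ)) : IsRel w c := by
  refine ⟨fun φ => ?_, fun g => ?_⟩
  · have h1 := h.1 φ
    simp only at h1
    have h2 : r * c (cbar φ) = r * (- c φ) := by rw [h1]; ring
    exact mul_left_cancel₀ hr h2
  · have h1 := h.2 g
    simp only [mul_assoc, ← Finset.mul_sum] at h1
    exact (mul_eq_zero.1 h1).resolve_left hr

theorem IsRel.translate {w c : (K →+* L) → ℤ} (h : IsRel w c) (k : L ≃ₐ[ℚ] L) :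
    IsRel w (fun φ => c (k • φ)) := by
  refine ⟨fun φ => ?_, fun g => ?_⟩
  · have h2 : k • cbar φ = cbar (k • φ) := rfl
    simp only [h2, h.1]
  · rw [← h.2 (g * k⁻¹)]
    refine Fintype.sum_equiv (MulAction.toPerm k) _ _ fun φ => ?_
    rw [MulAction.toPerm_apply, mul_smul, inv_smul_smul]

/-- Any two relations are proportional modulo `r`. -/
def Prop_mod (w : (K →+* L) → ℤ) (r : ℕ) : Prop :=
  ∀ c c' : (K →+* L) → ℤ, IsRel w c → IsRel w c' →
    ∃ α β : ℤ, ¬ ((r : ℤ) ∣ α ∧ (r : ℤ) ∣ β) ∧ ∀ φ, (r : ℤ) ∣ α * c φ + β * c' φ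

theorem det_pow {w : (K →+* L) → ℤ} {r : ℕ} (hr : r.Prime) (hp : Prop_mod w r)
    {c : (K →+* L) → ℤ} (hc : IsRel w c) {φ₀ : K →+* L} (hφ₀ : ¬ (r : ℤ) ∣ c φ₀) (k : ℕ) :
    ∀ c' : (K →+* L) → ℤ, IsRel w c' → ∀ φ φ', (r : ℤ) ^ k ∣ c φ * c' φ' - c φ' * c' φ := by
  have hrp : Prime (r : ℤ) := Nat.prime_iff_prime_int.1 hr
  have hr0 : (r : ℤ) ≠ 0 := by exact_mod_cast hr.ne_zero
  induction k with
  | zero => intro c' _ φ φ'; simp
  | succ k ih =>
    intro c' hc' φ φ'
    obtain ⟨α, β, hαβ, hdvd⟩ := hp c c' hc hc'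
    have hβ : ¬ (r : ℤ) ∣ β := by
      intro hβ
      apply hαβ
      refine ⟨?_, hβ⟩
      have h1 := hdvd φ₀
      have h2 : (r : ℤ) ∣ α * c φ₀ := (Int.dvd_add_left (hβ.mul_right _)).1 h1
      exact (hrp.dvd_or_dvd h2).resolve_right hφ₀
    -- an inverse of `β`
    have hcop : IsCoprime β (r : ℤ) := by
      rw [isCoprime_comm]
      exact (Prime.coprime_iff_not_dvd hrp).2 hβ
    obtain ⟨x, y, hxy⟩ := hcop
    -- `c' ≡ - x α c`
    have h1 : ∀ φ, (r : ℤ) ∣ c' φ + x * α * c φ := by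
      intro φ
      have h2 : c' φ + x * α * c φ = x * (α * c φ + β * c' φ) + (r : ℤ) * (y * c' φ) := by
        have h3 : c' φ = (x * β + y * r) * c' φ := by rw [hxy, one_mul]
        calc c' φ + x * α * c φ = (x * β + y * r) * c' φ + x * α * c φ := by rw [← h3]
          _ = _ := by ring
      rw [h2]
      exact dvd_add ((hdvd φ).mul_left x) (dvd_mul_right _ _)
    choose d hd using h1
    have hd' : IsRel w d := by
      apply IsRel.div hr0
      have h2 : (fun φ => (r : ℤ) * d φ) = fun φ => (1 : ℤ) * c' φ + (x * α) * c φ := by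
        funext φ
        rw [← hd φ, one_mul]
      rw [h2]
      exact hc'.lin hc 1 (x * α)
    have h3 := ih d hd' φ φ'
    have h4 : c φ * c' φ' - c φ' * c' φ = (r : ℤ) * (c φ * d φ' - c φ' * d φ) := by
      have e1 : c' φ' = r * d φ' - x * α * c φ' := by rw [← hd φ']; ring
      have e2 : c' φ = r * d φ - x * α * c φ := by rw [← hd φ]; ring
      rw [e1, e2]
      ring
    rw [h4, pow_succ, mul_comm]
    exact mul_dvd_mul_left _ h3

theorem eq_zero_of_pow_dvd {r : ℕ} (hr : 2 ≤ r) {z : ℤ} (h : ∀ k : ℕ, (r : ℤ) ^ k ∣ z) : z = 0 := by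
  apply Int.eq_zero_of_abs_lt_dvd (h z.natAbs)
  have h1 : z.natAbs < r ^ z.natAbs := Nat.lt_pow_self hr
  rw [Int.abs_eq_natAbs]
  exact_mod_cast h1

/-- If any two relations are proportional modulo `r`, they are proportional. -/
theorem det_zero {w : (K →+* L) → ℤ} {r : ℕ} (hr : r.Prime) (hp : Prop_mod w r) (n : ℕ) :
    ∀ c : (K →+* L) → ℤ, (∑ φ, (c φ).natAbs) = n → IsRel w c → ∀ c' : (K →+* L) → ℤ, IsRel w c' →
      ∀ φ φ', c φ * c' φ' = c φ' * c' φ := by
  have hr0 : (r : ℤ) ≠ 0 := by exact_mod_cast hr.ne_zero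
  induction n using Nat.strong_induction_on with
  | _ n ih =>
  intro c hn hc c' hc' φ φ'
  by_cases hall : ∀ φ, (r : ℤ) ∣ c φ
  · choose d hd using hall
    have hd' : IsRel w d := by
      apply IsRel.div hr0
      have h2 : (fun φ => (r : ℤ) * d φ) = c := funext fun φ => (hd φ).symm
      rw [h2]
      exact hc
    by_cases hz : ∀ φ, d φ = 0
    · rw [hd φ, hd φ', hz, hz]
      ring
    · push Not at hz
      obtain ⟨φ₁, hφ₁⟩ := hz
      have hlt : ∑ φ, (d φ).natAbs < n := by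
        rw [← hn]
        apply Finset.sum_lt_sum
        · intro φ _
          rw [hd φ, Int.natAbs_mul, Int.natAbs_natCast]
          exact Nat.le_mul_of_pos_left _ hr.pos
        · refine ⟨φ₁, Finset.mem_univ _, ?_⟩
          rw [hd φ₁, Int.natAbs_mul, Int.natAbs_natCast]
          have h1 : 0 < (d φ₁).natAbs := Int.natAbs_pos.2 hφ₁
          have h2 := hr.two_le
          nlinarith
      have h3 := ih _ hlt d rfl hd' c' hc' φ φ'
      rw [hd φ, hd φ', mul_assoc, mul_assoc, h3]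
  · push Not at hall
    obtain ⟨φ₀, hφ₀⟩ := hall
    have h1 := eq_zero_of_pow_dvd hr.two_le
      (fun k => det_pow hr hp hc hφ₀ k c' hc' φ φ')
    linarith

/-- The values of a nonzero relation have constant absolute value, and translation changes the
sign only. -/
theorem const_of_prop {w : (K →+* L) → ℤ} {r : ℕ} (hr : r.Prime) (hp : Prop_mod w r)
    {c : (K →+* L) → ℤ} (hc : IsRel w c) {φ₀ : K →+* L} (hφ₀ : c φ₀ ≠ 0) :
    (∀ φ φ', |c φ| = |c φ'|) ∧ ∀ (g : L ≃ₐ[ℚ] L) φ φ', c (g • φ) * c φ' = c (g • φ') * c φ := by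
  have hdet : ∀ (g : L ≃ₐ[ℚ] L) φ φ', c (g • φ) * c φ' = c (g • φ') * c φ := fun g φ φ' =>
    det_zero hr hp _ _ rfl (hc.translate g) c hc φ φ'
  refine ⟨?_, hdet⟩
  obtain ⟨z, -, hz⟩ := Finset.exists_max_image (Finset.univ : Finset (K →+* L))
    (fun φ => |c φ|) ⟨φ₀, Finset.mem_univ _⟩
  have hM : 0 < |c z| := lt_of_lt_of_le (abs_pos.2 hφ₀) (hz φ₀ (Finset.mem_univ _))
  have hle : ∀ (g : L ≃ₐ[ℚ] L) φ, |c (g • φ)| ≤ |c φ| := by
    intro g φ
    have h1 := congrArg abs (hdet g φ z)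
    rw [abs_mul, abs_mul] at h1
    have h2 : |c (g • z)| * |c φ| ≤ |c z| * |c φ| :=
      mul_le_mul_of_nonneg_right (hz _ (Finset.mem_univ _)) (abs_nonneg _)
    rw [← h1, mul_comm (|c z|)] at h2
    exact le_of_mul_le_mul_right h2 hM
  have hle' : ∀ φ φ' : K →+* L, |c φ| ≤ |c φ'| := by
    intro φ φ'
    obtain ⟨g, rfl⟩ := MulAction.exists_smul_eq (L ≃ₐ[ℚ] L) φ' φ
    exact hle g φ'
  exact fun φ φ' => le_antisymm (hle' φ φ') (hle' φ' φ)

theorem card_two {j : L →+* ℂ} {T : Type*} [Field T] [NumberField T]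
    (h : ∀ ψ : T →+* ℂ, ∃ φ : T →+* L, j.comp φ = ψ) {ψ₁ ψ₂ : T →+* L} (hne : ψ₁ ≠ ψ₂)
    (hall : ∀ ψ : T →+* L, ψ = ψ₁ ∨ ψ = ψ₂) : finrank ℚ T = 2 := by
  classical
  rw [← Pool.Agent.H204R3.CM.card_emb j h]
  have h1 : (Finset.univ : Finset (T →+* L)) = {ψ₁, ψ₂} := by
    ext ψ
    simp [hall ψ]
  rw [← Finset.card_univ, h1, Finset.card_pair hne]

/-- A nonzero relation comes from an imaginary quadratic subfield on which the trace of `w`
vanishes. -/
theorem quad_of_rel {j : L →+* ℂ} (h : ∀ ψ : K →+* ℂ, ∃ φ : K →+* L, j.comp φ = ψ)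
    {κ : L ≃ₐ[ℚ] L} (hκ : ∀ φ : K →+* L, κ • φ = cbar φ) {w : (K →+* L) → ℤ}
    (hw : ∀ φ, w (cbar φ) = - w φ) {r : ℕ} (hr : r.Prime) (hp : Prop_mod w r)
    {c : (K →+* L) → ℤ} (hc : IsRel w c) {φ₀ : K →+* L} (hφ₀ : c φ₀ ≠ 0) :
    ∃ T : IntermediateField ℚ K, finrank ℚ T = 2 ∧ NonReal T ∧ ∀ ψ : T →+* L, tr T w ψ = 0 := by
  classical
  obtain ⟨habs, hdet⟩ := const_of_prop hr hp hc hφ₀
  obtain ⟨T, c', hc', hmin⟩ := exists_factor φ₀ c
  have hne0 : ∀ φ, c φ ≠ 0 := fun φ => abs_pos.1 (by rw [habs φ φ₀]; exact abs_pos.2 hφ₀)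
  -- embeddings with the same value agree on `T`
  have hsame : ∀ φ φ' : K →+* L, c φ = c φ' → res T φ = res T φ' := by
    intro φ φ' hh
    obtain ⟨σ, rfl⟩ := MulAction.exists_smul_eq (L ≃ₐ[ℚ] L) φ' φ
    apply hmin
    intro g
    have h1 := hdet g (σ • φ') φ'
    rw [hh] at h1
    exact mul_right_cancel₀ (hne0 φ') h1
  have hdiff : ∀ φ φ' : K →+* L, res T φ = res T φ' → c φ = c φ' := by
    intro φ φ' hh
    rw [hc', hc', hh]
  have hval : ∀ φ, c φ = c φ₀ ∨ c φ = c (cbar φ₀) := by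
    intro φ
    rw [hc.1]
    exact abs_eq_abs.1 (habs φ φ₀)
  have hTr : NonReal T := by
    by_contra hreal
    unfold NonReal at hreal
    push Not at hreal
    have h1 : res T (cbar φ₀) = res T φ₀ := by
      ext x
      rw [res_apply, res_apply, cbar_apply, hreal x x.2]
    have h2 := hdiff _ _ h1
    rw [hc.1] at h2
    omega
  have hsub : ∀ ψ : T →+* ℂ, ∃ φ : T →+* L, j.comp φ = ψ := by
    intro ψ
    obtain ⟨φ, hφ⟩ : ∃ φ : K →+* ℂ, φ.comp (algebraMap T K) = ψ := by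
      let _ : Algebra T ℂ := ψ.toAlgebra
      let e : K →ₐ[T] ℂ := IsAlgClosed.lift
      exact ⟨e, RingHom.ext fun x => e.commutes x⟩
    obtain ⟨φ', rfl⟩ := h φ
    exact ⟨res T φ', hφ⟩
  refine ⟨T, ?_, hTr, ?_⟩
  · refine card_two hsub (ψ₁ := res T φ₀) (ψ₂ := res T (cbar φ₀)) ?_ ?_
    · intro hh
      have h2 := hdiff _ _ hh
      rw [hc.1] at h2
      omega
    · intro ψ
      obtain ⟨φ, rfl⟩ := res_surjective φ₀ T ψ
      rcases hval φ with h1 | h1
      · exact Or.inl (hsame _ _ h1)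
      · exact Or.inr (hsame _ _ h1)
  · -- the trace
    have hkey : ∀ φ₁ : K →+* L, tr T w (res T φ₁) = 0 := by
      intro φ₁
      have h1 : tr T w (res T φ₁) = ∑ φ : K →+* L, if c φ = c φ₁ then w φ else 0 := by
        unfold tr
        refine Finset.sum_congr rfl fun φ _ => ?_
        by_cases h2 : res T φ = res T φ₁
        · rw [if_pos h2, if_pos (hdiff _ _ h2)]
        · rw [if_neg h2, if_neg (fun h3 => h2 (hsame _ _ h3))]
      have h2 : ∑ φ : K →+* L, (if c φ = c φ₁ then w φ else 0) =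
          ∑ φ : K →+* L, (if c φ = c φ₁ then 0 else - w φ) := by
        refine Fintype.sum_equiv (MulAction.toPerm κ) _ _ fun φ => ?_
        rw [MulAction.toPerm_apply, hκ, hw, hc.1, neg_neg]
        have h3 : (c φ = c φ₁) ↔ ¬ (- c φ = c φ₁) := by
          have h4 := abs_eq_abs.1 (habs φ φ₁)
          have h5 := hne0 φ₁
          constructor
          · intro h6 h7
            omega
          · intro h6
            rcases h4 with h7 | h7
            · exact h7
            · exact absurd (by omega) h6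
        by_cases h6 : c φ = c φ₁
        · rw [if_pos h6, if_neg (h3.1 h6)]
        · rw [if_neg h6, if_pos (by by_contra h7; exact h6 (h3.2 h7))]
      have h3 := hc.2 1
      have h4 : ∀ φ : K →+* L, c φ * w ((1 : L ≃ₐ[ℚ] L) • φ) =
          c φ₁ * ((if c φ = c φ₁ then w φ else 0) + (if c φ = c φ₁ then 0 else - w φ)) := by
        intro φ
        rw [one_smul]
        by_cases h6 : c φ = c φ₁
        · rw [if_pos h6, if_pos h6, h6, add_zero]
        · rw [if_neg h6, if_neg h6, zero_add]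
          have h7 := (abs_eq_abs.1 (habs φ φ₁)).resolve_left h6
          rw [h7]
          ring
      simp only [h4] at h3
      rw [← Finset.mul_sum, Finset.sum_add_distrib, ← h2, ← h1] at h3
      have h8 := (mul_eq_zero.1 h3).resolve_left (hne0 φ₁)
      omega
    intro ψ
    obtain ⟨φ, rfl⟩ := res_surjective φ₀ T ψ
    exact hkey φ

end

end Pool.Agent.TH776.FS
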