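import Mathlib
import Pool.Agent.TH776.FS.Rel
import Pool.Agent.TH776.FS.Defs

/-!
# Functions with few values prime to `r`, or with few even values
-/

set_option linter.unusedSectionVars false
set_option linter.unusedVariables false

namespace Pool.Agent.TH776.FS

open NumberField Module Pool.Agent.H204R3.CM Pool.Agent.H977R3.WN Pool.Agent.W527

noncomputable section

variable {K L : Type*} [Field K] [NumberField K] [IsCMField K] [Field L] [NumberField L]
  [IsGalois ℚ L]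

theorem even_sum {f : (K →+* L) → ℤ} (hf : ∀ φ, f (cbar φ) = f φ) : (2 : ℤ) ∣ ∑ φ, f φ := by
  classical
  have h1 : ∑ φ : K →+* L, (f φ : ZMod 2) = 0 := by
    refine Finset.sum_involution (fun φ _ => cbar φ) (fun φ _ => ?_) (fun φ _ _ => cbar_ne φ)
      (fun φ _ => Finset.mem_univ _) (fun φ _ => cbar_cbar φ)
    rw [hf, CharTwo.add_self_eq_zero]
  have h2 : ((∑ φ : K →+* L, f φ : ℤ) : ZMod 2) = 0 := by push_cast; exact h1
  exact (ZMod.intCast_zmod_eq_zero_iff_dvd _ 2).1 h2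

theorem four_sum {f : (K →+* L) → ℤ} (hf : ∀ φ, f (cbar φ) = f φ) (h2 : ∀ φ, (2 : ℤ) ∣ f φ) :
    (4 : ℤ) ∣ ∑ φ, f φ := by
  choose e he using h2
  have h1 : ∀ φ, e (cbar φ) = e φ := fun φ => by
    have h3 := hf φ
    rw [he (cbar φ), he φ] at h3
    omega
  obtain ⟨s, hs⟩ := even_sum h1
  refine ⟨s, ?_⟩
  have h3 : ∑ φ : K →+* L, f φ = 2 * ∑ φ : K →+* L, e φ := by
    rw [Finset.mul_sum]
    exact Finset.sum_congr rfl fun φ _ => he φ
  rw [h3, hs]
  ring

theorem spike_odd (a : ℤ) (x φ : K →+* L) : spike a x (cbar φ) = - spike a x φ := by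
  classical
  unfold spike
  have h1 : (cbar φ = x) ↔ (φ = cbar x) :=
    ⟨fun h => by rw [← h, cbar_cbar], fun h => by rw [h, cbar_cbar]⟩
  have h2 : (cbar φ = cbar x) ↔ (φ = x) :=
    ⟨fun h => by rw [← cbar_cbar φ, h, cbar_cbar], fun h => by rw [h]⟩
  simp only [h1, h2]
  ring

theorem rel_two {w : (K →+* L) → ℤ} (hw : ∀ φ, w (cbar φ) = - w φ) {r : ℕ} (hr : r.Prime)
    {a b : ℤ} {x y : K →+* L} (hmod : ∀ φ, (r : ℤ) ∣ w φ - (spike a x φ + spike b y φ))
    {f : (K →+* L) → ℤ} (hf : IsRel w f) (g : L ≃ₐ[ℚ] L) :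
    (r : ℤ) ∣ a * f (g • x) + b * f (g • y) := by
  have hr0 : (r : ℤ) ≠ 0 := by exact_mod_cast hr.ne_zero
  choose v hv using hmod
  have hvodd : ∀ φ, v (cbar φ) = - v φ := by
    intro φ
    have h1 := hv (cbar φ)
    have h2 := hv φ
    rw [hw, spike_odd, spike_odd] at h1
    have h3 : (r : ℤ) * v (cbar φ) = r * (- v φ) := by
      rw [← h1]
      linear_combination -h2
    exact mul_left_cancel₀ hr0 h3
  obtain ⟨s, hs⟩ := even_sum (K := K) (L := L) (f := fun φ => f φ * v (g⁻¹ • φ)) (by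
    intro φ
    have h1 : g⁻¹ • cbar φ = cbar (g⁻¹ • φ) := rfl
    rw [h1, hf.1, hvodd]
    ring)
  have h1 := hf.2 g⁻¹
  have h2 : ∀ φ : K →+* L, f φ * w (g⁻¹ • φ) = f φ * spike a x (g⁻¹ • φ) +
      f φ * spike b y (g⁻¹ • φ) + r * (f φ * v (g⁻¹ • φ)) := by
    intro φ
    have h3 := hv (g⁻¹ • φ)
    linear_combination (f φ) * h3
  simp only [h2, Finset.sum_add_distrib, ← Finset.mul_sum] at h1
  rw [sum_spike f hf.1, sum_spike f hf.1, inv_inv, hs] at h1
  refine ⟨-s, ?_⟩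
  linarith

theorem conn {κ : L ≃ₐ[ℚ] L} (hκ : ∀ φ : K →+* L, κ • φ = cbar φ) {x y : K →+* L}
    (hxy : OnlyRat x y) (P : (K →+* L) → Prop) (hP : ∀ φ, P (cbar φ) ↔ P φ)
    (hg : ∀ g : L ≃ₐ[ℚ] L, P (g • x) ↔ P (g • y)) (φ φ' : K →+* L) : P φ ↔ P φ' := by
  obtain ⟨F, P', hP', hmin⟩ := exists_factor x P
  have hreal : ∀ t ∈ F, IsCMField.complexConj K t = t := by
    intro t ht
    have h1 := hmin κ x (fun g => by
      rw [hκ]
      have h2 : g • cbar x = cbar (g • x) := rfl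
      rw [h2]
      exact propext (hP _))
    rw [hκ] at h1
    have h2 := RingHom.congr_fun h1 ⟨t, ht⟩
    rw [res_apply, res_apply, cbar_apply] at h2
    exact x.injective h2
  obtain ⟨δ, hδ⟩ := MulAction.exists_smul_eq (L ≃ₐ[ℚ] L) x y
  have hxyF : ∀ t ∈ F, x t = y t := by
    intro t ht
    have h1 := hmin δ x (fun g => by
      rw [hδ]
      exact (propext (hg g)).symm)
    rw [hδ] at h1
    exact (RingHom.congr_fun h1 ⟨t, ht⟩).symm
  have hres : res F φ = res F φ' := by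
    ext t
    obtain ⟨q, hq⟩ := hxy t (hreal t t.2) (hxyF t t.2)
    rw [res_apply, res_apply, hq, map_ratCast, map_ratCast]
  rw [hP' φ, hP' φ', hres]

/-- The values of `w` which are prime to `r` are those at one pair. -/
theorem prop_single {w : (K →+* L) → ℤ} (hw : ∀ φ, w (cbar φ) = - w φ) {r : ℕ} (hr : r.Prime)
    {a : ℤ} {x : K →+* L} (ha : ¬ (r : ℤ) ∣ a) (hmod : ∀ φ, (r : ℤ) ∣ w φ - spike a x φ) :
    Prop_mod w r := by
  intro c c' hc hc'
  have hrp : Prime (r : ℤ) := Nat.prime_iff_prime_int.1 hr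
  have h1 : ∀ φ, (r : ℤ) ∣ c φ := by
    intro φ
    obtain ⟨g, rfl⟩ := MulAction.exists_smul_eq (L ≃ₐ[ℚ] L) x φ
    have h2 := rel_two hw hr (a := a) (b := 0) (x := x) (y := x) (fun φ => by
      have h3 : spike 0 x φ = 0 := by unfold spike; simp
      rw [h3, add_zero]
      exact hmod φ) hc g
    rw [zero_mul, add_zero] at h2
    exact (hrp.dvd_or_dvd h2).resolve_left ha
  refine ⟨1, 0, fun h => ?_, fun φ => ?_⟩
  · exact hrp.not_dvd_one h.1
  · rw [one_mul, zero_mul, add_zero]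
    exact h1 φ

/-- The values of `w` which are prime to `r` are those at two pairs. -/
theorem prop_double {κ : L ≃ₐ[ℚ] L} (hκ : ∀ φ : K →+* L, κ • φ = cbar φ) {w : (K →+* L) → ℤ}
    (hw : ∀ φ, w (cbar φ) = - w φ) {r : ℕ} (hr : r.Prime)
    {a b : ℤ} {x y : K →+* L} (ha : ¬ (r : ℤ) ∣ a) (hb : ¬ (r : ℤ) ∣ b)
    (hxy : OnlyRat x y) (hmod : ∀ φ, (r : ℤ) ∣ w φ - (spike a x φ + spike b y φ)) :
    Prop_mod w r := by
  intro c c' hc hc'
  have hrp : Prime (r : ℤ) := Nat.prime_iff_prime_int.1 hr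
  by_cases hall : ∀ φ, (r : ℤ) ∣ c φ
  · refine ⟨1, 0, fun h => hrp.not_dvd_one h.1, fun φ => ?_⟩
    rw [one_mul, zero_mul, add_zero]
    exact hall φ
  · push Not at hall
    obtain ⟨φ₀, hφ₀⟩ := hall
    refine ⟨c' φ₀, - c φ₀, fun h => hφ₀ ((dvd_neg).1 h.2), fun φ => ?_⟩
    have hf := hc.lin hc' (c' φ₀) (- c φ₀)
    have h1 := conn hκ hxy (fun φ => (r : ℤ) ∣ c' φ₀ * c φ + (- c φ₀) * c' φ) (fun φ => ?_)
      (fun g => ?_) φ φ₀
    · refine h1.2 ?_
      have h2 : c' φ₀ * c φ₀ + (- c φ₀) * c' φ₀ = 0 := by ring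
      rw [h2]
      exact dvd_zero _
    · rw [hc.1, hc'.1]
      have h2 : c' φ₀ * - c φ + - c φ₀ * - c' φ = - (c' φ₀ * c φ + - c φ₀ * c' φ) := by ring
      rw [h2, dvd_neg]
    · have h2 := rel_two hw hr hmod hf g
      constructor
      · intro h3
        have h4 : (r : ℤ) ∣ b * (c' φ₀ * c (g • y) + - c φ₀ * c' (g • y)) :=
          (Int.dvd_add_right (h3.mul_left a)).1 h2
        exact (hrp.dvd_or_dvd h4).resolve_left hb
      · intro h3
        have h4 : (r : ℤ) ∣ a * (c' φ₀ * c (g • x) + - c φ₀ * c' (g • x)) :=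
          (Int.dvd_add_left (h3.mul_left b)).1 h2
        exact (hrp.dvd_or_dvd h4).resolve_left ha

theorem rel_co {w : (K →+* L) → ℤ} (hw : ∀ φ, w (cbar φ) = - w φ)
    {a b : ℤ} {x y : K →+* L} (hodd : ∀ φ, Odd (w φ + (spike a x φ + spike b y φ)))
    {f : (K →+* L) → ℤ} (hf : IsRel w f) (g : L ≃ₐ[ℚ] L) :
    (4 : ℤ) ∣ 2 * (a * f (g • x) + b * f (g • y)) - ∑ φ, f φ ^ 2 := by
  let v : (K →+* L) → ℤ := fun φ => w φ + (spike a x φ + spike b y φ)
  have hv : ∀ φ, v φ = w φ + (spike a x φ + spike b y φ) := fun φ => rfl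
  have hvodd : ∀ φ, v (cbar φ) = - v φ := by
    intro φ
    rw [hv, hv, hw, spike_odd, spike_odd]
    ring
  have h0 := four_sum (K := K) (L := L) (f := fun φ => f φ * v (g⁻¹ • φ) - f φ ^ 2) (by
    intro φ
    have h1 : g⁻¹ • cbar φ = cbar (g⁻¹ • φ) := rfl
    rw [h1, hf.1, hvodd]
    ring) (by
    intro φ
    obtain ⟨k, hk⟩ := hodd (g⁻¹ • φ)
    have h1 : f φ * v (g⁻¹ • φ) - f φ ^ 2 = 2 * (f φ * k) + (f φ - f φ ^ 2) := by
      rw [hv, hk]
      ring
    rw [h1]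
    refine dvd_add (dvd_mul_right _ _) ?_
    have h2 : f φ - f φ ^ 2 = - (f φ * (f φ - 1)) := by ring
    rw [h2, dvd_neg]
    exact (Int.even_mul_pred_self (f φ)).two_dvd)
  have h1 := hf.2 g⁻¹
  have h2 : ∑ φ : K →+* L, (f φ * v (g⁻¹ • φ) - f φ ^ 2) =
      2 * (a * f (g • x) + b * f (g • y)) - ∑ φ, f φ ^ 2 := by
    rw [Finset.sum_sub_distrib]
    congr 1
    have h3 : ∀ φ : K →+* L, f φ * v (g⁻¹ • φ) = f φ * w (g⁻¹ • φ) +
        (f φ * spike a x (g⁻¹ • φ) + f φ * spike b y (g⁻¹ • φ)) := fun φ => by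
      rw [hv]
      ring
    simp only [h3, Finset.sum_add_distrib]
    rw [h1, sum_spike f hf.1, sum_spike f hf.1, inv_inv]
    ring
  rwa [h2] at h0

theorem prop_of_const {w : (K →+* L) → ℤ}
    (h : ∀ f, IsRel w f → ∀ φ φ', Even (f φ) ↔ Even (f φ')) : Prop_mod w 2 := by
  intro c c' hc hc'
  by_cases h1 : ∀ φ, Even (c φ)
  · refine ⟨1, 0, fun h => by have := h.1; omega, fun φ => ?_⟩
    rw [one_mul, zero_mul, add_zero]
    exact_mod_cast (h1 φ).two_dvd
  by_cases h2 : ∀ φ, Even (c' φ)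
  · refine ⟨0, 1, fun h => by have := h.2; omega, fun φ => ?_⟩
    rw [one_mul, zero_mul, zero_add]
    exact_mod_cast (h2 φ).two_dvd
  push Not at h1 h2
  obtain ⟨φ₁, h1⟩ := h1
  obtain ⟨φ₂, h2⟩ := h2
  refine ⟨1, 1, fun h => by have := h.1; omega, fun φ => ?_⟩
  have h3 : ¬ Even (c φ) := fun h4 => h1 ((h c hc φ φ₁).1 h4)
  have h4 : ¬ Even (c' φ) := fun h5 => h2 ((h c' hc' φ φ₂).1 h5)
  rw [Int.not_even_iff_odd] at h3 h4
  have h5 : Even (c φ + c' φ) := h3.add_odd h4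
  rw [one_mul, one_mul]
  exact_mod_cast h5.two_dvd

/-- The even values of `w` are those at one pair. -/
theorem prop_co_single {w : (K →+* L) → ℤ} (hw : ∀ φ, w (cbar φ) = - w φ) {x : K →+* L}
    (hodd : ∀ φ, Odd (w φ + spike 1 x φ)) : Prop_mod w 2 := by
  refine prop_of_const fun f hf φ φ' => ?_
  obtain ⟨g, rfl⟩ := MulAction.exists_smul_eq (L ≃ₐ[ℚ] L) x φ
  obtain ⟨g', rfl⟩ := MulAction.exists_smul_eq (L ≃ₐ[ℚ] L) x φ'
  have h0 : ∀ φ, Odd (w φ + (spike 1 x φ + spike 0 x φ)) := by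
    intro φ
    have h3 : spike 0 x φ = 0 := by unfold spike; simp
    rw [h3, add_zero]
    exact hodd φ
  have h1 := rel_co hw h0 hf g
  have h2 := rel_co hw h0 hf g'
  have h3 := dvd_sub h1 h2
  have h4 : (2 : ℤ) ∣ f (g • x) - f (g' • x) := by
    obtain ⟨s, hs⟩ := h3
    exact ⟨s, by linarith⟩
  rw [← even_iff_two_dvd, Int.even_sub] at h4
  exact h4

section double

variable {κ : L ≃ₐ[ℚ] L} (hκ : ∀ φ : K →+* L, κ • φ = cbar φ) {w : (K →+* L) → ℤ}
    (hw : ∀ φ, w (cbar φ) = - w φ) {x y : K →+* L} (hxy : OnlyRat x y)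
    (hodd : ∀ φ, Odd (w φ + (spike 1 x φ + spike 1 y φ)))

include hκ hw hxy hodd

theorem co_flip {f : (K →+* L) → ℤ} (hf : IsRel w f) (k : L ≃ₐ[ℚ] L) (φ φ' : K →+* L) :
    (Even (f (k • φ) + f φ) ↔ Even (f (k • φ') + f φ')) := by
  refine conn hκ hxy (fun φ => Even (f (k • φ) + f φ)) (fun φ => ?_) (fun g => ?_) φ φ'
  · have h1 : k • cbar φ = cbar (k • φ) := rfl
    simp only [h1, hf.1]
    have h2 : - f (k • φ) + - f φ = - (f (k • φ) + f φ) := by ring
    rw [h2, even_neg]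
  · have h1 := rel_co hw hodd hf g
    have h2 := rel_co hw hodd hf (k * g)
    rw [mul_smul, mul_smul] at h2
    have h3 := dvd_sub h2 h1
    simp only [one_mul] at h3
    have h4 : (2 : ℤ) ∣ (f (k • g • x) + f (g • x)) - (f (k • g • y) + f (g • y)) := by
      obtain ⟨s, hs⟩ := h3
      refine ⟨s + f (g • x) - f (k • g • y), ?_⟩
      linarith
    rw [← even_iff_two_dvd, Int.even_sub] at h4
    exact h4

theorem co_const {j : L →+* ℂ} (h : ∀ ψ : K →+* ℂ, ∃ φ : K →+* L, j.comp φ = ψ)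
    (hq : finrank ℚ K % 8 = 4 → ∀ F : IntermediateField ℚ K, ¬ NonReal F → finrank ℚ F ≠ 2)
    {f : (K →+* L) → ℤ} (hf : IsRel w f) (φ φ' : K →+* L) : Even (f φ) ↔ Even (f φ') := by
  classical
  obtain ⟨q, hq'⟩ := even_sum (K := K) (L := L) (f := fun φ => f φ ^ 2) (fun φ => by
    rw [hf.1]
    ring)
  have hrel : ∀ g : L ≃ₐ[ℚ] L, (2 : ℤ) ∣ f (g • x) + f (g • y) - q := by
    intro g
    have h1 := rel_co hw hodd hf g
    rw [hq'] at h1
    obtain ⟨s, hs⟩ := h1
    exact ⟨s, by linarith⟩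
  rcases Int.even_or_odd q with hqe | hqo
  · refine conn hκ hxy (fun φ => Even (f φ)) (fun φ => by rw [hf.1, even_neg]) (fun g => ?_) φ φ'
    have h1 := hrel g
    rw [← even_iff_two_dvd, Int.even_sub] at h1
    have h2 := h1.2 hqe
    rwa [Int.even_add] at h2
  · exfalso
    obtain ⟨δ, hδ⟩ := MulAction.exists_smul_eq (L ≃ₐ[ℚ] L) x y
    -- `δ` changes all parities
    have hne : ¬ Even (f (δ • x) + f x) := by
      intro h1
      have h2 := hrel 1
      rw [one_smul, one_smul, ← hδ, ← even_iff_two_dvd, Int.even_sub] at h2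
      rw [Int.not_even_iff_odd.2 hqo |> iff_false_intro] at h2
      apply h2.1
      rw [add_comm]
      exact h1
    have hflip : ∀ φ, (Even (f (δ • φ)) ↔ ¬ Even (f φ)) := by
      intro φ
      have h1 : ¬ Even (f (δ • φ) + f φ) := fun h2 =>
        hne ((co_flip hκ hw hxy hodd hf δ φ x).1 h2)
      rw [Int.even_add] at h1
      tauto
    -- half of the values are odd
    have hcard : (Finset.univ.filter (fun φ : K →+* L => ¬ Even (f φ))).card =
        (Finset.univ.filter (fun φ : K →+* L => Even (f φ))).card := by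
      refine Finset.card_bij (fun φ _ => δ • φ) (fun φ hφ => ?_) (fun φ _ φ' _ hh => ?_)
        (fun φ hφ => ?_)
      · rw [Finset.mem_filter] at hφ ⊢
        exact ⟨Finset.mem_univ _, (hflip φ).2 hφ.2⟩
      · exact smul_left_cancel δ hh
      · refine ⟨δ⁻¹ • φ, ?_, smul_inv_smul δ φ⟩
        rw [Finset.mem_filter] at hφ ⊢
        refine ⟨Finset.mem_univ _, ?_⟩
        have h1 := hflip (δ⁻¹ • φ)
        rw [smul_inv_smul] at h1
        exact h1.1 hφ.2
    have htot : (Finset.univ.filter (fun φ : K →+* L => Even (f φ))).card +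
        (Finset.univ.filter (fun φ : K →+* L => ¬ Even (f φ))).card = finrank ℚ K := by
      rw [Finset.card_filter_add_card_filter_not, Finset.card_univ,
        Pool.Agent.H204R3.CM.card_emb j h]
    have hsq : (4 : ℤ) ∣ ∑ φ : K →+* L, f φ ^ 2 -
        ((Finset.univ.filter (fun φ : K →+* L => ¬ Even (f φ))).card : ℤ) := by
      rw [Finset.card_filter]
      push_cast
      rw [← Finset.sum_sub_distrib]
      refine Finset.dvd_sum fun φ _ => ?_
      split_ifs with h1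
      · obtain ⟨k, hk⟩ := h1
        rw [hk]
        exact ⟨k ^ 2, by ring⟩
      · rw [Int.not_even_iff_odd] at h1
        obtain ⟨k, hk⟩ := h1
        rw [hk]
        exact ⟨k ^ 2 + k, by ring⟩
    have hmod : finrank ℚ K % 8 = 4 := by
      obtain ⟨k, hk⟩ := hqo
      obtain ⟨s, hs⟩ := hsq
      rw [hq', hk] at hs
      omega
    -- the quadratic subfield
    obtain ⟨T, P', hP', hmin⟩ := exists_factor x (fun φ => Even (f φ))
    have hT : ¬ NonReal T := by
      rintro ⟨t, ht, hne'⟩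
      apply hne'
      have h1 := hmin κ x (fun g => by
        rw [hκ]
        have h2 : g • cbar x = cbar (g • x) := rfl
        rw [h2, hf.1, even_neg])
      rw [hκ] at h1
      have h2 := RingHom.congr_fun h1 ⟨t, ht⟩
      rw [res_apply, res_apply, cbar_apply] at h2
      exact x.injective h2
    have hsame : ∀ φ φ' : K →+* L, (Even (f φ) ↔ Even (f φ')) → res T φ = res T φ' := by
      intro φ φ' hh
      obtain ⟨σ, rfl⟩ := MulAction.exists_smul_eq (L ≃ₐ[ℚ] L) φ' φ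
      apply hmin
      intro g
      have h1 := co_flip hκ hw hxy hodd hf g (σ • φ') φ'
      rw [Int.even_add, Int.even_add] at h1
      apply propext
      tauto
    have hdiff : ∀ φ φ' : K →+* L, res T φ = res T φ' → (Even (f φ) ↔ Even (f φ')) := by
      intro φ φ' hh
      have h1 := hP' φ
      have h2 := hP' φ'
      rw [h1, h2, hh]
    have hsub : ∀ ψ : T →+* ℂ, ∃ φ : T →+* L, j.comp φ = ψ := by
      intro ψ
      obtain ⟨φ, hφ⟩ : ∃ φ : K →+* ℂ, φ.comp (algebraMap T K) = ψ := by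
        let _ : Algebra T ℂ := ψ.toAlgebra
        let e : K →ₐ[T] ℂ := IsAlgClosed.lift
        exact ⟨e, RingHom.ext fun x => e.commutes x⟩
      obtain ⟨φ', rfl⟩ := h φ
      exact ⟨res T φ', hφ⟩
    refine hq hmod T hT (card_two hsub (ψ₁ := res T x) (ψ₂ := res T (δ • x)) ?_ ?_)
    · intro hh
      have h1 := hdiff _ _ hh
      have h2 := hflip x
      tauto
    · intro ψ
      obtain ⟨φ, rfl⟩ := res_surjective x T ψ
      by_cases h1 : (Even (f φ) ↔ Even (f x))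
      · exact Or.inl (hsame _ _ h1)
      · refine Or.inr (hsame _ _ ?_)
        have h2 := hflip x
        tauto

/-- The even values of `w` are those at two pairs. -/
theorem prop_co_double {j : L →+* ℂ} (h : ∀ ψ : K →+* ℂ, ∃ φ : K →+* L, j.comp φ = ψ)
    (hq : finrank ℚ K % 8 = 4 → ∀ F : IntermediateField ℚ K, ¬ NonReal F → finrank ℚ F ≠ 2) :
    Prop_mod w 2 :=
  prop_of_const fun f hf φ φ' => co_const hκ hw hxy hodd h hq hf φ φ'

end double

end

end Pool.Agent.TH776.FS
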