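import Mathlib
import Pool.Agent.TH776.FS.Cond
import Pool.Agent.W527.TateRel

/-!
# Balanced families contain pairs or half systems
-/

set_option linter.unusedSectionVars false
set_option linter.unusedVariables false

namespace Pool.Agent.TH776.FS

open NumberField Module Pool.Agent.H204R3.CM Pool.Agent.H977R3.WN Pool.Agent.W527
  Pool.Agent.W527.Dec

noncomputable section

variable {L : Type*} [Field L] [NumberField L] [IsGalois ℚ L]
variable {ι : Type*} [Fintype ι] {E : ι → Type*} [∀ i, Field (E i)] [∀ i, NumberField (E i)]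
  [∀ i, IsCMField (E i)]

/-- For each member of the family there is an automorphism which is the complex conjugation on its
embeddings and trivial on the embeddings of the other members. -/
def IndepL (L : Type*) [Field L] [NumberField L] (E : ι → Type*) [∀ i, Field (E i)]
    [∀ i, NumberField (E i)] [∀ i, IsCMField (E i)] : Prop :=
  ∀ i, ∃ σ : L ≃ₐ[ℚ] L, (∀ φ : E i →+* L, σ • φ = cbar φ) ∧
    ∀ i', i' ≠ i → ∀ φ : E i' →+* L, σ • φ = φ

theorem split_rel {w : ∀ i, (E i →+* L) → ℤ} (hw : ∀ i φ, w i (cbar φ) = - w i φ)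
    (hind : IndepL L E) {b : ∀ i, (E i →+* L) → ℤ} (hb : ∀ i φ, b i (cbar φ) = - b i φ)
    (hrel : ∀ g : L ≃ₐ[ℚ] L, ∑ i, ∑ φ : E i →+* L, b i φ * w i (g • φ) = 0) (i : ι) :
    IsRel (w i) (b i) := by
  classical
  refine ⟨hb i, fun g => ?_⟩
  obtain ⟨σ, h1, h2⟩ := hind i
  have h3 := hrel g
  have h4 := hrel (σ * g)
  rw [← Finset.add_sum_erase _ _ (Finset.mem_univ i)] at h3 h4
  have h5 : ∑ φ : E i →+* L, b i φ * w i ((σ * g) • φ) = - ∑ φ : E i →+* L, b i φ * w i (g • φ) := by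
    rw [← Finset.sum_neg_distrib]
    refine Finset.sum_congr rfl fun φ _ => ?_
    rw [mul_smul, h1, hw]
    ring
  have h6 : ∑ i' ∈ Finset.univ.erase i, ∑ φ : E i' →+* L, b i' φ * w i' ((σ * g) • φ) =
      ∑ i' ∈ Finset.univ.erase i, ∑ φ : E i' →+* L, b i' φ * w i' (g • φ) := by
    refine Finset.sum_congr rfl fun i' hi' => Finset.sum_congr rfl fun φ _ => ?_
    rw [mul_smul, h2 i' (Finset.ne_of_mem_erase hi')]
  rw [h5, h6] at h4
  linarith

theorem half_balanced {K : Type*} [Field K] [NumberField K] [IsCMField K]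
    {w c : (K →+* L) → ℤ} (hw : ∀ φ, w (cbar φ) = - w φ) (hc : IsRel w c)
    (habs : ∀ φ φ', |c φ| = |c φ'|) {φ₀ : K →+* L} (hφ₀ : 0 < c φ₀) :
    (∀ g : L ≃ₐ[ℚ] L, ∑ φ ∈ Finset.univ.filter (fun φ : K →+* L => 0 < c φ), w (g • φ) = 0) ∧
      2 * (Finset.univ.filter (fun φ : K →+* L => 0 < c φ)).card = Fintype.card (K →+* L) := by
  classical
  have hval : ∀ φ, c φ = c φ₀ ∨ c φ = - c φ₀ := fun φ => abs_eq_abs.1 (habs φ φ₀)
  have hcb : ∀ φ, 0 < c (cbar φ) ↔ ¬ 0 < c φ := by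
    intro φ
    rw [hc.1]
    rcases hval φ with h | h <;> constructor <;> intro h1 <;> omega
  constructor
  · intro g
    have h1 := hc.2 g
    have h2 : ∀ φ : K →+* L, c φ * w (g • φ) =
        c φ₀ * ((if 0 < c φ then w (g • φ) else 0) + (if 0 < c φ then 0 else - w (g • φ))) := by
      intro φ
      by_cases h3 : 0 < c φ
      · rw [if_pos h3, if_pos h3, add_zero]
        rcases hval φ with h | h
        · rw [h]
        · omega
      · rw [if_neg h3, if_neg h3, zero_add]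
        rcases hval φ with h | h
        · omega
        · rw [h]; ring
    simp only [h2] at h1
    rw [← Finset.mul_sum, Finset.sum_add_distrib] at h1
    have h4 : ∑ φ : K →+* L, (if 0 < c φ then 0 else - w (g • φ)) =
        ∑ φ : K →+* L, (if 0 < c φ then w (g • φ) else 0) := by
      let e : (K →+* L) ≃ (K →+* L) := ⟨cbar, cbar, cbar_cbar, cbar_cbar⟩
      refine Fintype.sum_equiv e _ _ fun φ => ?_
      have h5 : e φ = cbar φ := rfl
      have h6 : g • cbar φ = cbar (g • φ) := rfl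
      rw [h5, h6, hw]
      by_cases h3 : 0 < c φ
      · rw [if_pos h3, if_neg (fun h7 => (hcb φ).1 h7 h3)]
      · rw [if_neg h3, if_pos ((hcb φ).2 h3)]
    rw [h4] at h1
    have h5 := (mul_eq_zero.1 h1).resolve_left hφ₀.ne'
    rw [Finset.sum_filter]
    omega
  · have h1 : (Finset.univ.filter (fun φ : K →+* L => 0 < c φ)).card =
        (Finset.univ.filter (fun φ : K →+* L => ¬ 0 < c φ)).card := by
      refine Finset.card_bij (fun φ _ => cbar φ) (fun φ hφ => ?_) (fun φ _ φ' _ hh => ?_)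
        (fun φ hφ => ?_)
      · rw [Finset.mem_filter] at hφ ⊢
        exact ⟨Finset.mem_univ _, fun h => (hcb φ).1 h hφ.2⟩
      · rw [← cbar_cbar φ, hh, cbar_cbar]
      · refine ⟨cbar φ, ?_, cbar_cbar φ⟩
        rw [Finset.mem_filter] at hφ ⊢
        exact ⟨Finset.mem_univ _, (hcb φ).2 hφ.2⟩
    have h2 := Finset.card_filter_add_card_filter_not (s := (Finset.univ : Finset (K →+* L)))
      (fun φ : K →+* L => 0 < c φ)
    rw [Finset.card_univ] at h2
    omega

/-- A nonempty balanced family contains a pair or a half system of one field. -/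
theorem exists_block {w : ∀ i, (E i →+* L) → ℤ} (hw : ∀ i φ, w i (cbar φ) = - w i φ)
    (hind : IndepL L E) (habs : ∀ i c, IsRel (w i) c → ∀ φ φ', |c φ| = |c φ'|)
    {A : Type*} [Fintype A] [Nonempty A] (μ : A → Σ i, (E i →+* L))
    (hμ : ∀ g : L ≃ₐ[ℚ] L, ∑ k, wtS w g (μ k) = 0) :
    ∃ S : Finset A, S.Nonempty ∧ (∀ g : L ≃ₐ[ℚ] L, ∑ k ∈ S, wtS w g (μ k) = 0) ∧
      (S.card = 2 ∨ ∃ i, (∃ c, IsRel (w i) c ∧ ∃ φ, c φ ≠ 0) ∧
        (∀ k ∈ S, ∃ φ : E i →+* L, μ k = ⟨i, φ⟩) ∧ Set.InjOn μ S ∧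
        2 * S.card = Fintype.card (E i →+* L)) := by
  classical
  by_cases hpair : ∃ k k' : A, μ k' = ⟨(μ k).1, cbar (μ k).2⟩
  · obtain ⟨k, k', hkk⟩ := hpair
    have hne : k ≠ k' := by
      rintro rfl
      have h1 : (⟨(μ k).1, (μ k).2⟩ : Σ i, (E i →+* L)) = ⟨(μ k).1, cbar (μ k).2⟩ := hkk
      exact cbar_ne (μ k).2 (eq_of_heq (Sigma.mk.inj h1).2).symm
    refine ⟨{k, k'}, ⟨k, Finset.mem_insert_self _ _⟩, fun g => ?_, Or.inl (Finset.card_pair hne)⟩
    rw [Finset.sum_pair hne, hkk]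
    have h1 : wtS w g ⟨(μ k).1, cbar (μ k).2⟩ = w (μ k).1 (cbar (g • (μ k).2)) := rfl
    rw [h1, hw]
    unfold wtS
    ring
  · push Not at hpair
    let n : ∀ i, (E i →+* L) → ℤ := fun i φ =>
      ((Finset.univ.filter (fun k => μ k = ⟨i, φ⟩)).card : ℤ)
    have hn0 : ∀ i φ, 0 ≤ n i φ := fun i φ => Int.natCast_nonneg _
    have hn1 : ∀ i φ, 0 < n i φ → ∃ k, μ k = ⟨i, φ⟩ := by
      intro i φ h
      obtain ⟨k, hk⟩ := Finset.card_pos.1 (Int.natCast_pos.1 h)
      exact ⟨k, (Finset.mem_filter.1 hk).2⟩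
    have hn2 : ∀ k, 0 < n (μ k).1 (μ k).2 := fun k =>
      Int.natCast_pos.2 (Finset.card_pos.2 ⟨k, Finset.mem_filter.2 ⟨Finset.mem_univ _, rfl⟩⟩)
    have hsum : ∀ g : L ≃ₐ[ℚ] L, ∑ i, ∑ φ : E i →+* L, n i φ * w i (g • φ) = 0 := by
      intro g
      rw [← hμ g]
      have h1 : ∑ i, ∑ φ : E i →+* L, n i φ * w i (g • φ) =
          ∑ x : Σ i, (E i →+* L), n x.1 x.2 * wtS w g x := by
        rw [Fintype.sum_sigma]
        rfl
      rw [h1, ← Finset.sum_fiberwise (s := Finset.univ) (g := μ)]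
      refine Finset.sum_congr rfl fun x _ => ?_
      have h2 : ∑ k ∈ Finset.univ.filter (fun k => μ k = x), wtS w g (μ k) =
          ∑ k ∈ Finset.univ.filter (fun k => μ k = x), wtS w g x :=
        Finset.sum_congr rfl fun k hk => by rw [(Finset.mem_filter.1 hk).2]
      rw [h2, Finset.sum_const, nsmul_eq_mul]
    let b : ∀ i, (E i →+* L) → ℤ := fun i φ => n i φ - n i (cbar φ)
    have hb : ∀ i φ, b i (cbar φ) = - b i φ := by
      intro i φ
      simp only [b, cbar_cbar]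
      ring
    have hbrel : ∀ g : L ≃ₐ[ℚ] L, ∑ i, ∑ φ : E i →+* L, b i φ * w i (g • φ) = 0 := by
      intro g
      have h1 : ∀ i, ∑ φ : E i →+* L, n i (cbar φ) * w i (g • φ) =
          - ∑ φ : E i →+* L, n i φ * w i (g • φ) := by
        intro i
        rw [← Finset.sum_neg_distrib]
        let e : (E i →+* L) ≃ (E i →+* L) := ⟨cbar, cbar, cbar_cbar, cbar_cbar⟩
        refine Fintype.sum_equiv e _ _ fun φ => ?_
        have h5 : e φ = cbar φ := rfl
        have h6 : g • cbar φ = cbar (g • φ) := rfl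
        rw [h5, h6, hw]
        ring
      have h2 : ∀ i, ∑ φ : E i →+* L, b i φ * w i (g • φ) =
          2 * ∑ φ : E i →+* L, n i φ * w i (g • φ) := by
        intro i
        simp only [b, sub_mul, Finset.sum_sub_distrib]
        rw [h1]
        ring
      simp only [h2]
      rw [← Finset.mul_sum, hsum, mul_zero]
    obtain ⟨k₀⟩ := (inferInstance : Nonempty A)
    have hcb0 : n (μ k₀).1 (cbar (μ k₀).2) = 0 := by
      by_contra hne
      obtain ⟨k', hk'⟩ := hn1 _ _ (lt_of_le_of_ne (hn0 _ _) (Ne.symm hne))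
      exact hpair k₀ k' hk'
    have hpos : 0 < b (μ k₀).1 (μ k₀).2 := by
      change 0 < n _ _ - n _ _
      rw [hcb0, sub_zero]
      exact hn2 k₀
    have hr := split_rel hw hind hb hbrel (μ k₀).1
    obtain ⟨hbal, hcard⟩ := half_balanced (hw _) hr (habs _ _ hr) hpos
    have hex : ∀ φ : E (μ k₀).1 →+* L, 0 < b (μ k₀).1 φ → ∃ k, μ k = ⟨(μ k₀).1, φ⟩ := by
      intro φ hφ
      apply hn1
      have h1 : b (μ k₀).1 φ = n _ φ - n _ (cbar φ) := rfl
      have h2 := hn0 (μ k₀).1 (cbar φ)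
      omega
    choose! kk hkk using hex
    have hinj : Set.InjOn kk (Finset.univ.filter (fun φ => 0 < b (μ k₀).1 φ) :
        Finset (E (μ k₀).1 →+* L)) := by
      intro φ hφ φ' hφ' hh
      have h1 := hkk φ (Finset.mem_filter.1 hφ).2
      have h2 := hkk φ' (Finset.mem_filter.1 hφ').2
      rw [hh, h2] at h1
      exact (eq_of_heq (Sigma.mk.inj h1).2).symm
    refine ⟨(Finset.univ.filter (fun φ => 0 < b (μ k₀).1 φ)).image kk, ?_, fun g => ?_,
      Or.inr ⟨(μ k₀).1, ⟨b _, hr, (μ k₀).2, hpos.ne'⟩, fun k hk => ?_, ?_, ?_⟩⟩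
    · refine Finset.Nonempty.image ?_ _
      exact ⟨(μ k₀).2, Finset.mem_filter.2 ⟨Finset.mem_univ _, hpos⟩⟩
    · refine (Finset.sum_image hinj).trans (Eq.trans ?_ (hbal g))
      refine Finset.sum_congr rfl fun φ hφ => ?_
      rw [hkk φ (Finset.mem_filter.1 hφ).2]
      rfl
    · obtain ⟨φ, hφ, rfl⟩ := Finset.mem_image.1 hk
      exact ⟨φ, hkk φ (Finset.mem_filter.1 hφ).2⟩
    · intro k hk k' hk' hh
      obtain ⟨φ, hφ, rfl⟩ := Finset.mem_image.1 (Finset.mem_coe.1 hk)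
      obtain ⟨φ', hφ', rfl⟩ := Finset.mem_image.1 (Finset.mem_coe.1 hk')
      rw [hkk φ (Finset.mem_filter.1 hφ).2, hkk φ' (Finset.mem_filter.1 hφ').2] at hh
      rw [eq_of_heq (Sigma.mk.inj hh).2]
    · rw [Finset.card_image_of_injOn hinj]
      exact hcard

/-- If the degrees of the fields are divisible by four, balanced families have an even number of
members. -/
theorem even_balanced {w : ∀ i, (E i →+* L) → ℤ} (hw : ∀ i φ, w i (cbar φ) = - w i φ)
    (hind : IndepL L E) (habs : ∀ i c, IsRel (w i) c → ∀ φ φ', |c φ| = |c φ'|)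
    (h4 : ∀ i, 4 ∣ Fintype.card (E i →+* L)) (d : ℕ) :
    ∀ {A : Type} (S : Finset A) (μ : A → Σ i, (E i →+* L)), S.card = d →
    (∀ g : L ≃ₐ[ℚ] L, ∑ k ∈ S, wtS w g (μ k) = 0) → Even S.card := by
  classical
  induction d using Nat.strong_induction_on with
  | _ d ih =>
  intro A S μ hS hμ
  rcases S.eq_empty_or_nonempty with h0 | hne
  · rw [h0]; simp
  have : Nonempty {k // k ∈ S} := ⟨⟨hne.choose, hne.choose_spec⟩⟩
  obtain ⟨S₁, h1, h2, h3⟩ := exists_block hw hind habs (fun k : {k // k ∈ S} => μ k) (fun g => by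
    rw [← hμ g]
    exact Finset.sum_coe_sort S (fun k => wtS w g (μ k)))
  have hev : Even S₁.card := by
    rcases h3 with h3 | ⟨i, -, -, -, h3⟩
    · rw [h3]; exact even_two
    · obtain ⟨q, hq⟩ := h4 i
      rw [hq] at h3
      exact ⟨q, by omega⟩
  let S' : Finset A := S₁.map (Function.Embedding.subtype _)
  have hsub : S' ⊆ S := by
    intro k hk
    obtain ⟨k₁, hk₁, rfl⟩ := Finset.mem_map.1 hk
    exact k₁.2
  have hS' : S'.card = S₁.card := Finset.card_map _
  have hbal' : ∀ g : L ≃ₐ[ℚ] L, ∑ k ∈ S', wtS w g (μ k) = 0 := by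
    intro g
    rw [← h2 g, Finset.sum_map]
    rfl
  have hbal : ∀ g : L ≃ₐ[ℚ] L, ∑ k ∈ S \ S', wtS w g (μ k) = 0 := by
    intro g
    have h5 := Finset.sum_sdiff (f := fun k => wtS w g (μ k)) hsub
    rw [hbal' g, add_zero, hμ g] at h5
    exact h5
  have hlt : (S \ S').card < d := by
    rw [Finset.card_sdiff_of_subset hsub, hS', ← hS]
    have h5 := Finset.card_pos.2 h1
    have h6 := Finset.card_pos.2 hne
    omega
  have h7 := ih _ hlt (S \ S') μ rfl hbal
  have h8 := Finset.card_sdiff_add_card_eq_card hsub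
  rw [← h8, hS']
  exact h7.add hev

end

end Pool.Agent.TH776.FS
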