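import Mathlib
import Pool.Agent.TH776.FS.Blocks
import Pool.Agent.W527.TateFinal

/-!
# Weil numbers with few slopes that are exceptional modulo a prime: main theorem
-/

set_option linter.unusedSectionVars false
set_option linter.unusedVariables false

namespace Pool.Agent.TH776.FS

open NumberField Module Equiv Pool.Agent.H204R3.CM Pool.Agent.H977R3.WN Pool.Agent.W527
  Pool.Agent.W527.Dec Pool.Agent.W527.TateRing Pool.Agent.H485R3.Exact

noncomputable section

section transfer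

variable {K L : Type} [Field K] [NumberField K] [IsCMField K] [Field L] [NumberField L]
  [IsGalois ℚ L]

theorem isRel_of_prop {v w : (K →+* L) → ℤ} {s : ℝ} (hs : s ≠ 0)
    (h : ∀ φ, (w φ : ℝ) = s * v φ) (c : (K →+* L) → ℤ) : IsRel w c ↔ IsRel v c := by
  unfold IsRel
  refine and_congr_right fun _ => forall_congr' fun g => ?_
  have h1 : ((∑ φ : K →+* L, c φ * w (g • φ) : ℤ) : ℝ) =
      s * ((∑ φ : K →+* L, c φ * v (g • φ) : ℤ) : ℝ) := by
    push_cast
    rw [Finset.mul_sum]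
    refine Finset.sum_congr rfl fun φ _ => ?_
    rw [h]
    ring
  constructor
  · intro h2
    rw [h2, Int.cast_zero] at h1
    have h3 := (mul_eq_zero.1 h1.symm).resolve_left hs
    exact_mod_cast h3
  · intro h2
    rw [h2, Int.cast_zero, mul_zero] at h1
    exact_mod_cast h1

theorem propMod_of_prop {v w : (K →+* L) → ℤ} {s : ℝ} (hs : s ≠ 0)
    (h : ∀ φ, (w φ : ℝ) = s * v φ) {r : ℕ} (hp : Prop_mod v r) : Prop_mod w r := by
  intro c c' hc hc'
  exact hp c c' ((isRel_of_prop hs h c).1 hc) ((isRel_of_prop hs h c').1 hc')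

open Classical in
theorem single_of {v : (K →+* L) → ℤ} (hv : ∀ φ, v (cbar φ) = - v φ) {r : ℕ} (hr : r.Prime)
    {z : K →+* L} (hsup : ∀ φ, ¬ (r : ℤ) ∣ v φ → φ = z ∨ φ = cbar z)
    (hne : ∃ φ, ¬ (r : ℤ) ∣ v φ) : ¬ (r : ℤ) ∣ v z ∧ ∀ φ, (r : ℤ) ∣ v φ - spike (v z) z φ := by
  have hz : ¬ (r : ℤ) ∣ v z := by
    obtain ⟨φ, hφ⟩ := hne
    rcases hsup φ hφ with h | h
    · rwa [← h]
    · rw [h, hv, dvd_neg] at hφ
      exact hφ
  refine ⟨hz, fun φ => ?_⟩
  unfold spike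
  by_cases h1 : φ = z
  · rw [if_pos h1, if_neg (by rw [h1]; exact (cbar_ne z).symm), h1]
    simp
  by_cases h2 : φ = cbar z
  · rw [if_neg h1, if_pos h2, h2, hv]
    simp
  rw [if_neg h1, if_neg h2]
  by_contra h3
  rw [sub_self, sub_zero] at h3
  rcases hsup φ h3 with h | h
  · exact h1 h
  · exact h2 h

open Classical in
/-- Few values prime to `r`. -/
theorem propMod_of_few {κ : L ≃ₐ[ℚ] L} (hκ : ∀ φ : K →+* L, κ • φ = cbar φ)
    {v : (K →+* L) → ℤ} (hv : ∀ φ, v (cbar φ) = - v φ) {r : ℕ} (hr : r.Prime)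
    {x y : K →+* L} (hsup : ∀ φ, ¬ (r : ℤ) ∣ v φ → InPairs x y φ)
    (hne : ∃ φ, ¬ (r : ℤ) ∣ v φ) (hxy : x = y ∨ OnlyRat x y) : Prop_mod v r := by
  have hxx : y = x ∨ y = cbar x → Prop_mod v r := by
    intro h0
    have h1 : ∀ φ, ¬ (r : ℤ) ∣ v φ → φ = x ∨ φ = cbar x := by
      intro φ hφ
      rcases hsup φ hφ with h | h | h | h
      · exact Or.inl h
      · exact Or.inr h
      · rcases h0 with h2 | h2
        · exact Or.inl (h.trans h2)
        · exact Or.inr (h.trans h2)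
      · rcases h0 with h2 | h2
        · exact Or.inr (by rw [h, h2])
        · exact Or.inl (by rw [h, h2, cbar_cbar])
    obtain ⟨h2, h3⟩ := single_of hv hr h1 hne
    exact prop_single hv hr h2 h3
  by_cases h0 : y = x ∨ y = cbar x
  · exact hxx h0
  rw [not_or] at h0
  obtain ⟨hyx, hyx'⟩ := h0
  have hR : OnlyRat x y := hxy.resolve_left (fun h => hyx h.symm)
  by_cases hy : (r : ℤ) ∣ v y
  · have h1 : ∀ φ, ¬ (r : ℤ) ∣ v φ → φ = x ∨ φ = cbar x := by
      intro φ hφ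
      rcases hsup φ hφ with h | h | h | h
      · exact Or.inl h
      · exact Or.inr h
      · exact absurd (by rw [h]; exact hy) hφ
      · exact absurd (by rw [h, hv]; exact (dvd_neg).2 hy) hφ
    obtain ⟨h2, h3⟩ := single_of hv hr h1 hne
    exact prop_single hv hr h2 h3
  by_cases hx : (r : ℤ) ∣ v x
  · have h1 : ∀ φ, ¬ (r : ℤ) ∣ v φ → φ = y ∨ φ = cbar y := by
      intro φ hφ
      rcases hsup φ hφ with h | h | h | h
      · exact absurd (by rw [h]; exact hx) hφ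
      · exact absurd (by rw [h, hv]; exact (dvd_neg).2 hx) hφ
      · exact Or.inl h
      · exact Or.inr h
    obtain ⟨h2, h3⟩ := single_of hv hr h1 hne
    exact prop_single hv hr h2 h3
  refine prop_double hκ hv hr hx hy hR fun φ => ?_
  have e1 : cbar y ≠ x := fun h => hyx' (by rw [← h, cbar_cbar])
  have e2 : cbar y ≠ cbar x := fun h => hyx (by rw [← cbar_cbar y, h, cbar_cbar])
  unfold spike
  by_cases h2 : φ = x
  · rw [h2, if_pos rfl, if_neg (cbar_ne x).symm, if_neg (Ne.symm hyx), if_neg (Ne.symm e1)]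
    simp
  by_cases h3 : φ = cbar x
  · rw [h3, if_neg (cbar_ne x), if_pos rfl, if_neg (Ne.symm hyx'), if_neg (Ne.symm e2), hv]
    simp
  by_cases h4 : φ = y
  · rw [h4, if_neg hyx, if_neg hyx', if_pos rfl, if_neg (cbar_ne y).symm]
    simp
  by_cases h5 : φ = cbar y
  · rw [h5, if_neg e1, if_neg e2, if_neg (cbar_ne y), if_pos rfl, hv]
    simp
  rw [if_neg h2, if_neg h3, if_neg h4, if_neg h5]
  by_contra h6
  rw [sub_self, add_zero, sub_zero] at h6
  rcases hsup φ h6 with h | h | h | h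
  · exact h2 h
  · exact h3 h
  · exact h4 h
  · exact h5 h

open Classical in
/-- Few even values. -/
theorem propMod_of_fewEven {κ : L ≃ₐ[ℚ] L} (hκ : ∀ φ : K →+* L, κ • φ = cbar φ)
    {j : L →+* ℂ} (h : ∀ ψ : K →+* ℂ, ∃ φ : K →+* L, j.comp φ = ψ)
    {v : (K →+* L) → ℤ} (hv : ∀ φ, v (cbar φ) = - v φ)
    {x y : K →+* L} (hsup : ∀ φ, Even (v φ) ↔ InPairs x y φ)
    (hxy : x = y ∨ OnlyRat x y ∧ (finrank ℚ K % 8 = 4 →
      ∀ F : IntermediateField ℚ K, finrank ℚ F = 2 → IsCM F)) : Prop_mod v 2 := by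
  by_cases h0 : y = x ∨ y = cbar x
  · refine prop_co_single hv (x := x) fun φ => ?_
    unfold spike
    by_cases h2 : φ = x
    · have h3 : Even (v x) := (hsup x).2 (Or.inl rfl)
      rw [h2, if_pos rfl, if_neg (cbar_ne x).symm, sub_zero]
      exact h3.add_odd odd_one
    by_cases h3 : φ = cbar x
    · have h4 : Even (v (cbar x)) := (hsup _).2 (Or.inr (Or.inl rfl))
      rw [h3, if_neg (cbar_ne x), if_pos rfl, zero_sub]
      exact h4.add_odd (odd_one.neg)
    rw [if_neg h2, if_neg h3, sub_self, add_zero, ← Int.not_even_iff_odd, hsup]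
    rintro (h | h | h | h)
    · exact h2 h
    · exact h3 h
    · rcases h0 with h4 | h4
      · exact h2 (h.trans h4)
      · exact h3 (h.trans h4)
    · rcases h0 with h4 | h4
      · exact h3 (by rw [h, h4])
      · exact h2 (by rw [h, h4, cbar_cbar])
  rw [not_or] at h0
  obtain ⟨hyx, hyx'⟩ := h0
  obtain ⟨hR, hq⟩ := hxy.resolve_left (fun h => hyx h.symm)
  have e1 : cbar y ≠ x := fun h => hyx' (by rw [← h, cbar_cbar])
  have e2 : cbar y ≠ cbar x := fun h => hyx (by rw [← cbar_cbar y, h, cbar_cbar])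
  refine prop_co_double hκ hv hR (fun φ => ?_) h (fun h8 F hF h2 => ?_)
  · unfold spike
    by_cases h2 : φ = x
    · have h3 : Even (v x) := (hsup x).2 (Or.inl rfl)
      rw [h2, if_pos rfl, if_neg (cbar_ne x).symm, if_neg (Ne.symm hyx), if_neg (Ne.symm e1)]
      exact h3.add_odd (by decide)
    by_cases h3 : φ = cbar x
    · have h4 : Even (v (cbar x)) := (hsup _).2 (Or.inr (Or.inl rfl))
      rw [h3, if_neg (cbar_ne x), if_pos rfl, if_neg (Ne.symm hyx'), if_neg (Ne.symm e2)]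
      exact h4.add_odd (by decide)
    by_cases h4 : φ = y
    · have h5 : Even (v y) := (hsup y).2 (Or.inr (Or.inr (Or.inl rfl)))
      rw [h4, if_neg hyx, if_neg hyx', if_pos rfl, if_neg (cbar_ne y).symm]
      exact h5.add_odd (by decide)
    by_cases h5 : φ = cbar y
    · have h6 : Even (v (cbar y)) := (hsup _).2 (Or.inr (Or.inr (Or.inr rfl)))
      rw [h5, if_neg e1, if_neg e2, if_neg (cbar_ne y), if_pos rfl]
      exact h6.add_odd (by decide)
    rw [if_neg h2, if_neg h3, if_neg h4, if_neg h5, sub_self, add_zero, add_zero,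
      ← Int.not_even_iff_odd, hsup]
    rintro (h | h | h | h)
    · exact h2 h
    · exact h3 h
    · exact h4 h
    · exact h5 h
  · exact hF ((nonReal_iff F).2 (hq h8 F h2))

end transfer

section weil

variable {p m : ℕ} [hp : Fact p.Prime]

theorem exists_lift_padic {K L : Type} [Field K] [NumberField K] [Field L] [NumberField L]
    (j : L →+* ℂ) (h : ∀ ψ : K →+* ℂ, ∃ φ : K →+* L, j.comp φ = ψ) (jp : L →+* PadicAlgCl p)
    (τ : K →+* PadicAlgCl p) : ∃ φ : K →+* L, jp.comp φ = τ := by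
  classical
  have hinj : Function.Injective (fun φ : K →+* L => jp.comp φ) := by
    intro φ φ' hh
    exact RingHom.ext fun x => jp.injective (RingHom.congr_fun hh x)
  have hbij : Function.Bijective (fun φ : K →+* L => jp.comp φ) := by
    rw [Fintype.bijective_iff_injective_and_card]
    exact ⟨hinj, by rw [Pool.Agent.H204R3.CM.card_emb j h, Embeddings.card]⟩
  exact hbij.2 τ

theorem cbar_comp {K L : Type} [Field K] [NumberField K] [IsCMField K] [Field L]
    (jp : L →+* PadicAlgCl p) (φ : K →+* L) : jp.comp (cbar φ) = cbar (jp.comp φ) := rfl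

theorem comp_inj {K L : Type} [Field K] [Field L] (jp : L →+* PadicAlgCl p) {φ φ' : K →+* L}
    (h : jp.comp φ = jp.comp φ') : φ = φ' :=
  RingHom.ext fun x => jp.injective (RingHom.congr_fun h x)

theorem inPairs_comp {K L : Type} [Field K] [NumberField K] [IsCMField K] [Field L]
    (jp : L →+* PadicAlgCl p) (x y φ : K →+* L) :
    InPairs (jp.comp x) (jp.comp y) (jp.comp φ) ↔ InPairs x y φ := by
  unfold InPairs
  rw [← cbar_comp, ← cbar_comp]
  have h1 : ∀ a b : K →+* L, jp.comp a = jp.comp b ↔ a = b :=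
    fun a b => ⟨comp_inj jp, fun h => by rw [h]⟩
  rw [h1, h1, h1, h1]

theorem onlyRat_comp {K L : Type} [Field K] [NumberField K] [IsCMField K] [Field L]
    (jp : L →+* PadicAlgCl p) {x y : K →+* L} (h : OnlyRat (jp.comp x) (jp.comp y)) :
    OnlyRat x y := fun t h1 h2 => h t h1 (congrArg jp h2)

variable {W : WeilNumber p m} {L : Type} [Field L] [NumberField L] [IsGalois ℚ L]

/-- The deviations, as a function on the embeddings in `L`. -/
theorem dev_odd {u : (W.K →+* PadicAlgCl p) → ℤ} (hu : IsDev W u) (jp : L →+* PadicAlgCl p)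
    (φ : W.K →+* L) : u (jp.comp (cbar φ)) = - u (jp.comp φ) := by
  obtain ⟨κ, hκ, h⟩ := hu
  obtain ⟨κ', u', hκ', hu'⟩ := exists_slopes_pos (p := p) (ne_zero_of_weil W.weil) m
  have h1 := anti_of_slopes' W.weil hκ'.ne' hu' (jp.comp φ)
  have h2 := h (jp.comp φ)
  have h3 := h (cbar (jp.comp φ))
  rw [hu'] at h2 h3
  rw [h1] at h3
  push_cast at h3
  rw [cbar_comp]
  have h4 : κ * ((u (cbar (jp.comp φ)) : ℝ)) = κ * (- (u (jp.comp φ) : ℝ)) := by
    rw [← h3]
    linear_combination -h2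
  have h5 := mul_left_cancel₀ hκ h4
  exact_mod_cast h5

theorem propMod_of_conditions (hW : FewPrimeTo W ∨ FewEven W) {j : L →+* ℂ}
    (h : ∀ ψ : W.K →+* ℂ, ∃ φ : W.K →+* L, j.comp φ = ψ) (jp : L →+* PadicAlgCl p)
    {κc : L ≃ₐ[ℚ] L} (hκc : ∀ φ : W.K →+* L, κc • φ = cbar φ)
    {w : (W.K →+* L) → ℤ} {D : ℝ} (hD : D ≠ 0)
    (hw : ∀ φ, (w φ : ℝ) = D * (2 * (- Real.logb p ‖(jp.comp φ) W.π‖) - m)) :
    ∃ r : ℕ, r.Prime ∧ Prop_mod w r := by
  rcases hW with ⟨r, u, x, y, hr, hu, hne, hsup, hxy⟩ | ⟨u, x, y, hu, hsup, hxy⟩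
  · obtain ⟨x, rfl⟩ := exists_lift_padic j h jp x
    obtain ⟨y, rfl⟩ := exists_lift_padic j h jp y
    obtain ⟨κ, hκ, hu'⟩ := id hu
    refine ⟨r, hr, propMod_of_prop (v := fun φ => u (jp.comp φ)) (s := D * κ) (mul_ne_zero hD hκ)
      (fun φ => by rw [hw, hu', mul_assoc]) ?_⟩
    refine propMod_of_few hκc (dev_odd hu jp) hr (x := x) (y := y) (fun φ hφ => ?_) ?_ ?_
    · exact (inPairs_comp jp x y φ).1 (hsup _ hφ)
    · obtain ⟨τ, hτ⟩ := hne
      obtain ⟨φ, rfl⟩ := exists_lift_padic j h jp τ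
      exact ⟨φ, hτ⟩
    · rcases hxy with h1 | h1
      · exact Or.inl (comp_inj jp h1)
      · exact Or.inr (onlyRat_comp jp h1)
  · obtain ⟨x, rfl⟩ := exists_lift_padic j h jp x
    obtain ⟨y, rfl⟩ := exists_lift_padic j h jp y
    obtain ⟨κ, hκ, hu'⟩ := id hu
    refine ⟨2, Nat.prime_two, propMod_of_prop (v := fun φ => u (jp.comp φ)) (s := D * κ)
      (mul_ne_zero hD hκ) (fun φ => by rw [hw, hu', mul_assoc]) ?_⟩
    refine propMod_of_fewEven hκc h (dev_odd hu jp) (x := x) (y := y) (fun φ => ?_) ?_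
    · rw [hsup, inPairs_comp]
    · rcases hxy with h1 | ⟨h1, h2⟩
      · exact Or.inl (comp_inj jp h1)
      · exact Or.inr ⟨onlyRat_comp jp h1, h2⟩

theorem abs_of_propMod {K L : Type} [Field K] [NumberField K] [IsCMField K] [Field L]
    [NumberField L] [IsGalois ℚ L] {w : (K →+* L) → ℤ} (hp : ∃ r : ℕ, r.Prime ∧ Prop_mod w r)
    (c : (K →+* L) → ℤ) (hc : IsRel w c) (φ φ' : K →+* L) : |c φ| = |c φ'| := by
  obtain ⟨r, hr, hpr⟩ := hp
  by_cases h : ∃ φ₀, c φ₀ ≠ 0
  · obtain ⟨φ₀, hφ₀⟩ := h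
    exact (const_of_prop hr hpr hc hφ₀).1 φ φ'
  · push Not at h
    rw [h, h]

/-- A norm to an imaginary quadratic subfield on which the trace vanishes is supersingular. -/
theorem hasWeil_of_tr {j : L →+* ℂ} (h : ∀ ψ : W.K →+* ℂ, ∃ φ : W.K →+* L, j.comp φ = ψ)
    (jp : L →+* PadicAlgCl p) {w : (W.K →+* L) → ℤ} {D : ℝ} (hD : D ≠ 0)
    (hw : ∀ φ, (w φ : ℝ) = D * (2 * (- Real.logb p ‖(jp.comp φ) W.π‖) - m))
    {T : IntermediateField ℚ W.K} (h2 : finrank ℚ T = 2) (hT : NonReal T)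
    (htr : ∀ ψ : T →+* L, tr T w ψ = 0) : HasWeil W := by
  obtain ⟨κ', u', hκ', hu'⟩ := exists_slopes_pos (p := p) (ne_zero_of_weil W.weil) m
  have h3 : ∀ ψ : T →+* L, tr T (fun φ => u' (jp.comp φ)) ψ = 0 := by
    intro ψ
    have h4 : ((tr T w ψ : ℤ) : ℝ) = D * κ' * (tr T (fun φ => u' (jp.comp φ)) ψ : ℤ) := by
      classical
      unfold tr
      push_cast
      rw [Finset.mul_sum]
      refine Finset.sum_congr rfl fun φ _ => ?_
      split_ifs
      · rw [hw, hu', mul_assoc]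
      · rw [mul_zero]
    rw [htr ψ, Int.cast_zero] at h4
    have h5 := (mul_eq_zero.1 h4.symm).resolve_left
      (mul_ne_zero hD (by exact_mod_cast hκ'.ne'))
    exact_mod_cast h5
  obtain ⟨r, hr, h4⟩ := root_of_tr_zero j h W.integral W.weil hu' jp T h3
  exact ⟨T, h2, (nonReal_iff T).1 hT, r, hr, h4⟩

theorem hasWeil_of_rel (hW : FewPrimeTo W ∨ FewEven W) {j : L →+* ℂ}
    (h : ∀ ψ : W.K →+* ℂ, ∃ φ : W.K →+* L, j.comp φ = ψ) (jp : L →+* PadicAlgCl p)
    {κc : L ≃ₐ[ℚ] L} (hκc : ∀ φ : W.K →+* L, κc • φ = cbar φ)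
    {w : (W.K →+* L) → ℤ} {D : ℝ} (hD : D ≠ 0)
    (hw : ∀ φ, (w φ : ℝ) = D * (2 * (- Real.logb p ‖(jp.comp φ) W.π‖) - m))
    (hodd : ∀ φ, w (cbar φ) = - w φ)
    (hc : ∃ c, IsRel w c ∧ ∃ φ, c φ ≠ 0) : HasWeil W := by
  obtain ⟨r, hr, hpr⟩ := propMod_of_conditions hW h jp hκc hD hw
  obtain ⟨c, hc, φ₀, hφ₀⟩ := hc
  obtain ⟨T, h2, hT, htr⟩ := quad_of_rel h hκc hodd hr hpr hc hφ₀
  exact hasWeil_of_tr h jp hD hw h2 hT htr

end weil

section main

variable {p m : ℕ} [hp : Fact p.Prime] {ι : Type} [Fintype ι] {W : ι → WeilNumber p m}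

/-- The ring of Tate classes, in one degree. -/
theorem isTate_iff_ring (hW : ∀ i, FewPrimeTo (W i) ∨ FewEven (W i)) (hind : Independent W)
    {Ω : Type} [Field Ω]
    [IsAlgClosed Ω] [CharZero Ω] {A : ι → FrobSpace Ω} (hA : ∀ i, IsOfType (A i) (W i)) {n : ℕ}
    (hn : 2 ≤ n ∨ (1 ≤ n ∧ ∀ i, 4 ∣ finrank ℚ (W i).K)) {J : Type} [Fintype J] (t : J → ι)
    {κ' : Type} [Finite κ'] (hκ' : Even (Nat.card κ')) (f : Coh (productOf A t) κ') :
    IsTate (p ^ m) f ↔ TRing (p ^ m) n A (fun i => HasWeil (W i)) (productOf A t) κ' f := by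
  classical
  have := Fintype.ofFinite κ'
  refine ⟨fun hf => ?_, fun hf => isTate_of_ring hf⟩
  obtain ⟨D, N, κ, u, hD, hN, hκ, hNκ, hu⟩ := exists_weights W
  obtain ⟨L, _, _, j, h⟩ := exists_galois (fun i => (W i).K)
  let jp : L →+* PadicAlgCl p := ((IsAlgClosed.lift : L →ₐ[ℚ] PadicAlgCl p) : L →+* PadicAlgCl p)
  let jΩ : L →ₐ[ℚ] Ω := IsAlgClosed.lift
  have hlift : ∀ i, ∀ σ : (W i).K →+* Ω, ∃ φ : (W i).K →+* L, (jΩ : L →+* Ω).comp φ = σ := by
    intro i
    have hinj : Function.Injective (fun φ : (W i).K →+* L => (jΩ : L →+* Ω).comp φ) := by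
      intro φ φ' hh
      exact RingHom.ext fun x => jΩ.injective (RingHom.congr_fun hh x)
    have hbij : Function.Bijective (fun φ : (W i).K →+* L => (jΩ : L →+* Ω).comp φ) := by
      rw [Fintype.bijective_iff_injective_and_card]
      exact ⟨hinj, by rw [Pool.Agent.H204R3.CM.card_emb j (h i), Embeddings.card]⟩
    exact hbij.2
  obtain ⟨κc, hκc⟩ := exists_lift j (starRingAut : ℂ ≃+* ℂ)
  have hκc' : ∀ x, starRingEnd ℂ (j x) = j (κc x) := hκc
  have hκc'' : ∀ i, ∀ φ : (W i).K →+* L, κc • φ = cbar φ := by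
    intro i φ
    apply Pool.Agent.W527.comp_injective j
    change j.comp (κc • φ) = j.comp (cbar φ)
    rw [comp_cbar]
    exact RingHom.ext fun x => (hκc' (φ x)).symm
  have hodd : ∀ i, ∀ φ : (W i).K →+* L, ww N u jp i (cbar φ) = - ww N u jp i φ :=
    fun i φ => ww_odd hκ hu jp i φ
  have hDr : (D : ℝ) ≠ 0 := by exact_mod_cast hD.ne'
  have hwD : ∀ i, ∀ φ : (W i).K →+* L, ((ww N u jp i φ : ℤ) : ℝ) =
      (D : ℝ) * (2 * (- Real.logb p ‖(jp.comp φ) (W i).π‖) - m) := by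
    intro i φ
    rw [hu]
    unfold ww
    have h3 : (N i : ℝ) = κ i * D := by exact_mod_cast hNκ i
    push_cast
    rw [h3]
    ring
  have hindL : IndepL L (fun i => (W i).K) := by
    intro i
    obtain ⟨σ, h1, h2⟩ := hind i
    obtain ⟨g, hg⟩ := exists_lift j σ
    refine ⟨g, fun φ => ?_, fun i' hi' φ => ?_⟩
    · apply Pool.Agent.W527.comp_injective j
      change j.comp (g • φ) = j.comp (cbar φ)
      rw [comp_cbar, ← h1 (j.comp φ), lifts_comp j hg]
    · apply Pool.Agent.W527.comp_injective j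
      change j.comp (g • φ) = j.comp φ
      rw [← lifts_comp j hg, h2 i' hi']
  have habs : ∀ i c, IsRel (ww N u jp i) c → ∀ φ φ' : (W i).K →+* L, |c φ| = |c φ'| :=
    fun i => abs_of_propMod (propMod_of_conditions (hW i) (h i) jp (hκc'' i) hDr (hwD i))
  have hblocks : HasBlocks (L := L) (fun i => HasWeil (W i)) (ww N u jp) := by
    intro K _ _ μ hμ
    obtain ⟨S, hS, hsum, hS'⟩ := exists_block hodd hindL habs μ hμ
    refine ⟨S, hS, hsum, ?_⟩
    rcases hS' with h1 | ⟨i, h1, h2, h3, h4⟩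
    · exact Or.inl h1
    · exact Or.inr ⟨i, hasWeil_of_rel (hW i) (h i) jp (hκc'' i) hDr (hwD i) (hodd i) h1, h2, h3⟩
  have E : ∀ i, EB (A i) (W i) := fun i => (exists_EB (hA i)).some
  refine ring_of_mono E t hf fun x hx ξ hξ => ?_
  obtain ⟨s, hs, hrel⟩ := hx
  choose φ hφ using fun k => hlift (ty E (x k)).1 (ty E (x k)).2
  have hei : ∀ k, ei (ty E (x k)) = jΩ (φ k (W (ty E (x k)).1).π) := by
    intro k
    unfold ei
    rw [← hφ k]
    rfl
  let μ : κ' → Σ i, ((W i).K →+* L) := fun k => ⟨(ty E (x k)).1, φ k⟩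
  have hrel' : PP μ ^ (2 * s) = ((p ^ m : ℕ) : L) ^ (s * Fintype.card κ') := by
    apply jΩ.injective
    unfold PP
    rw [map_pow, map_prod, map_pow, map_natCast, ← hrel]
    congr 1
    exact Finset.prod_congr rfl fun k _ => (hei k).symm
  refine mon_of_blocks (B := fun i => HasWeil (W i)) hD hNκ hu jp (jΩ : L →+* Ω) E hblocks ?_
    _ κ' μ rfl (by rwa [Nat.card_eq_fintype_card] at hκ')
    (fun g => sum_of_rel hD hNκ hu jp μ hs hrel' g) ξ (fun k v => ?_)
  · rcases hn with h1 | ⟨h1, h2⟩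
    · exact Or.inl h1
    · refine Or.inr ⟨h1, fun K _ μ S hS => even_balanced hodd hindL habs (fun i => ?_) _ S μ rfl hS⟩
      rw [Pool.Agent.H204R3.CM.card_emb j (h i)]
      exact h2 i
  · rw [hξ k v, hei k]
    rfl

/-- The criterion for one Weil number. -/
theorem generate_iff {W : WeilNumber p m} (hW : FewPrimeTo W ∨ FewEven W) :
    Norm.PairingsGenerate (I := Unit) (K := fun _ => W.K) p (fun _ => m) (fun _ => W.π) ↔
      ¬ HasWeil W := by
  classical
  constructor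
  · rintro hg ⟨F, -, hF, n, hn, h1⟩
    exact norm_ne_of_generate W.gen W.weil hg F hF n hn h1
  · intro hno Ω _ _ _ V _ _ _ F hF n t s hs c hc φ hφ
    obtain ⟨κ, u, hκ, hu⟩ := exists_slopes_pos (p := p) (ne_zero_of_weil W.weil) m
    refine tate_of_free_finite p (fun _ : Unit => W.K) (fun _ => m) (fun _ => W.π)
      (fun _ => W.gen) (fun _ => W.weil) (fun _ => κ) (fun _ => hκ.ne') (fun _ => u)
      (fun _ => hu) ?_ V F hF t s hs c hc φ hφ
    intro L _ _ j h' jp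
    have h : ∀ ψ : W.K →+* ℂ, ∃ φ : W.K →+* L, j.comp φ = ψ := h' ()
    obtain ⟨κc, hκc⟩ := exists_lift j (starRingAut : ℂ ≃+* ℂ)
    have hκc' : ∀ x, starRingEnd ℂ (j x) = j (κc x) := hκc
    have hκc'' : ∀ φ : W.K →+* L, κc • φ = cbar φ := by
      intro φ
      apply Pool.Agent.W527.comp_injective j
      change j.comp (κc • φ) = j.comp (cbar φ)
      rw [comp_cbar]
      exact RingHom.ext fun x => (hκc' (φ x)).symm
    intro c hc hrel i φ
    by_contra hne
    apply hno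
    have hκr : ((κ : ℝ))⁻¹ ≠ 0 := inv_ne_zero (by exact_mod_cast hκ.ne')
    refine hasWeil_of_rel hW h jp hκc'' (w := fun φ => u (jp.comp φ)) hκr (fun φ => ?_)
      (fun φ => anti_of_slopes' W.weil hκ.ne' hu (jp.comp φ)) ⟨c i, ⟨hc i, fun g => ?_⟩, φ, hne⟩
    · rw [hu, ← mul_assoc, inv_mul_cancel₀ (by exact_mod_cast hκ.ne'), one_mul]
    · have h1 := hrel g
      rw [Fintype.sum_unique] at h1
      exact h1

end main

end

end Pool.Agent.TH776.FS
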