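import Mathlib
import Pool.Agent.TH776.FS.Main

/-!
# Sufficient conditions, and the case of the slopes `0`, `m / 2`, `m`
-/

set_option linter.unusedSectionVars false
set_option linter.unusedVariables false

namespace Pool.Agent.TH776.FS

open NumberField Module Pool.Agent.H204R3.CM Pool.Agent.H977R3.WN Pool.Agent.W527
  Pool.Agent.W527.TateRing Pool.Agent.H485R3.Exact

noncomputable section

variable {p m : ℕ} [hp : Fact p.Prime] {W : WeilNumber p m}

/-- An imaginary quadratic subfield with supersingular norm gives a half system with vanishing sum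
of deviations. -/
theorem half_of_hasWeil (h : HasWeil W) :
    ∃ H : Set (W.K →+* PadicAlgCl p), (∀ τ, τ ∈ H ↔ cbar τ ∉ H) ∧
      ∀ u, IsDev W u → ∀ (s : Finset (W.K →+* PadicAlgCl p)), (∀ τ, τ ∈ s ↔ τ ∈ H) →
        ∑ τ ∈ s, u τ = 0 := by
  classical
  obtain ⟨F, h2, hF, n, hn, hroot⟩ := h
  obtain ⟨L, _, _, j, h'⟩ := exists_galois (fun _ : Unit => W.K)
  have h : ∀ ψ : W.K →+* ℂ, ∃ φ : W.K →+* L, j.comp φ = ψ := h' ()
  let jp : L →+* PadicAlgCl p := ((IsAlgClosed.lift : L →ₐ[ℚ] PadicAlgCl p) : L →+* PadicAlgCl p)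
  obtain ⟨κc, hκc⟩ := exists_lift j (starRingAut : ℂ ≃+* ℂ)
  have hκc' : ∀ x, starRingEnd ℂ (j x) = j (κc x) := hκc
  have hκc'' : ∀ φ : W.K →+* L, κc • φ = cbar φ := by
    intro φ
    apply Pool.Agent.W527.comp_injective j
    change j.comp (κc • φ) = j.comp (cbar φ)
    rw [comp_cbar]
    exact RingHom.ext fun x => (hκc' (φ x)).symm
  have hnr : NonReal F := (nonReal_iff F).2 hF
  obtain ⟨φ₀, _⟩ := h (Classical.arbitrary _)
  have hsub : ∀ ψ : F →+* ℂ, ∃ φ : F →+* L, j.comp φ = ψ := by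
    intro ψ
    obtain ⟨φ, hφ⟩ : ∃ φ : W.K →+* ℂ, φ.comp (algebraMap F W.K) = ψ := by
      let _ : Algebra F ℂ := ψ.toAlgebra
      let e : W.K →ₐ[F] ℂ := IsAlgClosed.lift
      exact ⟨e, RingHom.ext fun x => e.commutes x⟩
    obtain ⟨φ', rfl⟩ := h φ
    exact ⟨res F φ', hφ⟩
  have hcard : Fintype.card (F →+* L) = 2 := by
    rw [Pool.Agent.H204R3.CM.card_emb j hsub, h2]
  have hne : ∀ φ : W.K →+* L, res F (cbar φ) ≠ res F φ := by
    intro φ
    rw [← hκc'' φ, res_smul]
    exact sub_ne φ₀ hκc'' hnr _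
  have hall : ∀ (ψ₁ ψ₂ ψ : F →+* L), ψ₁ ≠ ψ₂ → ψ = ψ₁ ∨ ψ = ψ₂ := by
    intro ψ₁ ψ₂ ψ hne'
    by_contra hcon
    rw [not_or] at hcon
    have h3 : ({ψ, ψ₁, ψ₂} : Finset (F →+* L)).card = 3 := by
      rw [Finset.card_insert_of_notMem, Finset.card_pair hne']
      rw [Finset.mem_insert, Finset.mem_singleton, not_or]
      exact hcon
    have h4 := Finset.card_le_univ ({ψ, ψ₁, ψ₂} : Finset (F →+* L))
    omega
  let H : Set (W.K →+* PadicAlgCl p) := {τ | ∃ φ : W.K →+* L, jp.comp φ = τ ∧ res F φ = res F φ₀}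
  refine ⟨H, fun τ => ?_, fun u hu s hs => ?_⟩
  · obtain ⟨φ, rfl⟩ := exists_lift_padic j h jp τ
    constructor
    · rintro ⟨φ', h3, h4⟩ ⟨φ'', h5, h6⟩
      have h7 := comp_inj jp h3
      subst h7
      rw [← cbar_comp] at h5
      have h8 := comp_inj jp h5
      subst h8
      exact hne φ' (h6.trans h4.symm)
    · intro h3
      refine ⟨φ, rfl, ?_⟩
      by_contra h4
      apply h3
      refine ⟨cbar φ, rfl, ?_⟩
      rcases hall (res F φ) (res F φ₀) (res F (cbar φ)) h4 with h5 | h5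
      · exact absurd h5 (hne φ)
      · exact h5
  · obtain ⟨κ, hκ, hu'⟩ := hu
    obtain ⟨κ', u', hκ', hu''⟩ := exists_slopes_pos (p := p) (ne_zero_of_weil W.weil) m
    have hlogp : 0 < Real.log p := Real.log_pos (by exact_mod_cast hp.out.one_lt)
    have h3 := log_unitNorm j h (ne_zero_of_weil W.weil) hu'' F (res F φ₀) jp
    have h4 : ‖jp (res F φ₀ (Norm.unitNorm p m F W.π))‖ = 1 := by
      have h5 : ‖jp (res F φ₀ (Norm.unitNorm p m F W.π))‖ ^ n = 1 := by
        rw [← norm_pow, ← map_pow, ← map_pow, hroot, map_one, map_one, norm_one]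
      exact (pow_eq_one_iff_of_nonneg (norm_nonneg _) hn.ne').1 h5
    rw [h4, Real.log_one] at h3
    have h5 : (tr F (fun φ => u' (jp.comp φ)) (res F φ₀) : ℝ) = 0 := by
      have h6 := neg_eq_zero.1 h3.symm
      exact (mul_eq_zero.1 h6).resolve_left (mul_ne_zero hlogp.ne' (by exact_mod_cast hκ'.ne'))
    have h6 : κ * ((∑ τ ∈ s, u τ : ℤ) : ℝ) = κ' * (tr F (fun φ => u' (jp.comp φ)) (res F φ₀) : ℤ) := by
      unfold tr
      push_cast
      rw [Finset.mul_sum, Finset.mul_sum]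
      have h7 : ∀ φ : W.K →+* L, (κ' : ℝ) * (if res F φ = res F φ₀ then (u' (jp.comp φ) : ℝ) else 0) =
          if res F φ = res F φ₀ then κ * (u (jp.comp φ) : ℝ) else 0 := by
        intro φ
        split_ifs
        · rw [← hu', ← hu'']
        · rw [mul_zero]
      have h8 : (∑ φ : W.K →+* L, (κ' : ℝ) * ((if res F φ = res F φ₀ then u' (jp.comp φ) else 0 : ℤ) : ℝ)) =
          ∑ φ ∈ Finset.univ.filter (fun φ : W.K →+* L => res F φ = res F φ₀),
            κ * (u (jp.comp φ) : ℝ) := by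
        rw [Finset.sum_filter]
        refine Finset.sum_congr rfl fun φ _ => ?_
        rw [← h7]
        push_cast
        rfl
      have h9 : ∑ τ ∈ s, κ * (u τ : ℝ) =
          ∑ φ ∈ Finset.univ.filter (fun φ : W.K →+* L => res F φ = res F φ₀),
            κ * (u (jp.comp φ) : ℝ) := by
        refine (Finset.sum_bij (fun φ _ => jp.comp φ) (fun φ hφ => ?_) (fun φ _ φ' _ hh => ?_)
          (fun τ hτ => ?_) (fun φ _ => rfl)).symm
        · exact (hs _).2 ⟨φ, rfl, (Finset.mem_filter.1 hφ).2⟩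
        · exact comp_inj jp hh
        · obtain ⟨φ, h10, h11⟩ := (hs τ).1 hτ
          exact ⟨φ, Finset.mem_filter.2 ⟨Finset.mem_univ _, h11⟩, h10⟩
      rw [h9, ← h8]
      refine Finset.sum_congr rfl fun φ _ => ?_
      push_cast
      rfl
    rw [h5, mul_zero] at h6
    have h7 := (mul_eq_zero.1 h6).resolve_left hκ
    exact_mod_cast h7

theorem dev_odd' {u : (W.K →+* PadicAlgCl p) → ℤ} (hu : IsDev W u) (τ : W.K →+* PadicAlgCl p) :
    u (cbar τ) = - u τ := by
  obtain ⟨L, _, _, j, h'⟩ := exists_galois (fun _ : Unit => W.K)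
  have h : ∀ ψ : W.K →+* ℂ, ∃ φ : W.K →+* L, j.comp φ = ψ := h' ()
  let jp : L →+* PadicAlgCl p := ((IsAlgClosed.lift : L →ₐ[ℚ] PadicAlgCl p) : L →+* PadicAlgCl p)
  obtain ⟨φ, rfl⟩ := exists_lift_padic j h jp τ
  exact dev_odd hu jp φ

/-- If the deviations are odd for an odd number of pairs, norms to imaginary quadratic subfields are
not supersingular. -/
theorem not_hasWeil_of_odd {u : (W.K →+* PadicAlgCl p) → ℤ} (hu : IsDev W u)
    (hcard : Nat.card {τ // Odd (u τ)} % 4 = 2) : ¬ HasWeil W := by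
  classical
  intro h
  obtain ⟨H, hH, hsum⟩ := half_of_hasWeil h
  let s : Finset (W.K →+* PadicAlgCl p) := Finset.univ.filter (fun τ => τ ∈ H)
  have h1 := hsum u hu s (fun τ => by simp [s])
  have hodd := dev_odd' hu
  have h2 : (s.filter (fun τ => Odd (u τ))).card =
      ((Finset.univ \ s).filter (fun τ => Odd (u τ))).card := by
    refine Finset.card_bij (fun τ _ => cbar τ) (fun τ hτ => ?_) (fun τ _ τ' _ hh => ?_)
      (fun τ hτ => ?_)
    · simp only [s, Finset.mem_filter, Finset.mem_sdiff, Finset.mem_univ, true_and] at hτ ⊢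
      refine ⟨(hH τ).1 hτ.1, ?_⟩
      rw [hodd, odd_neg]
      exact hτ.2
    · rw [← cbar_cbar τ, hh, cbar_cbar]
    · simp only [s, Finset.mem_filter, Finset.mem_sdiff, Finset.mem_univ, true_and] at hτ
      refine ⟨cbar τ, ?_, cbar_cbar τ⟩
      simp only [s, Finset.mem_filter, Finset.mem_univ, true_and]
      refine ⟨(hH _).2 (by rw [cbar_cbar]; exact hτ.1), ?_⟩
      rw [hodd, odd_neg]
      exact hτ.2
  have h3 : Nat.card {τ // Odd (u τ)} = (Finset.univ.filter (fun τ => Odd (u τ))).card := by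
    rw [Nat.card_eq_fintype_card, Fintype.card_subtype]
  have h4 : (Finset.univ.filter (fun τ => Odd (u τ))).card =
      (s.filter (fun τ => Odd (u τ))).card + ((Finset.univ \ s).filter (fun τ => Odd (u τ))).card := by
    rw [← Finset.card_union_of_disjoint]
    · congr 1
      ext τ
      simp only [Finset.mem_filter, Finset.mem_univ, true_and, Finset.mem_union, Finset.mem_sdiff]
      tauto
    · rw [Finset.disjoint_left]
      intro τ h5 h6
      simp only [Finset.mem_filter, Finset.mem_sdiff] at h5 h6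
      exact h6.1.2 h5.1
  have h5 : Odd (s.filter (fun τ => Odd (u τ))).card := by
    rw [Nat.odd_iff]
    omega
  have h6 : (2 : ℤ) ∣ ∑ τ ∈ s, u τ - ((s.filter (fun τ => Odd (u τ))).card : ℤ) := by
    rw [Finset.card_filter]
    push_cast
    rw [← Finset.sum_sub_distrib]
    refine Finset.dvd_sum fun τ _ => ?_
    split_ifs with h7
    · obtain ⟨k, hk⟩ := h7
      exact ⟨k, by rw [hk]; ring⟩
    · rw [Int.not_odd_iff_even] at h7
      obtain ⟨k, hk⟩ := h7
      exact ⟨k, by rw [hk]; ring⟩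
  rw [h1] at h6
  obtain ⟨k, hk⟩ := h5
  obtain ⟨l, hl⟩ := h6
  rw [hk] at hl
  push_cast at hl
  omega

/-- If the deviations are prime to `r` for one pair only, norms to imaginary quadratic subfields are
not supersingular. -/
theorem not_hasWeil_of_single {r : ℕ} (hr : r.Prime) {u : (W.K →+* PadicAlgCl p) → ℤ}
    (hu : IsDev W u) (x : W.K →+* PadicAlgCl p) (hne : ∃ τ, ¬ (r : ℤ) ∣ u τ)
    (hsup : ∀ τ, ¬ (r : ℤ) ∣ u τ → τ = x ∨ τ = cbar x) : ¬ HasWeil W := by
  classical
  intro h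
  obtain ⟨H, hH, hsum⟩ := half_of_hasWeil h
  let s : Finset (W.K →+* PadicAlgCl p) := Finset.univ.filter (fun τ => τ ∈ H)
  have h1 := hsum u hu s (fun τ => by simp [s])
  have hodd := dev_odd' hu
  have hx : ¬ (r : ℤ) ∣ u x := by
    obtain ⟨τ, hτ⟩ := hne
    rcases hsup τ hτ with h2 | h2
    · rwa [← h2]
    · rw [h2, hodd, dvd_neg] at hτ
      exact hτ
  obtain ⟨z, hz, hzr, hz'⟩ : ∃ z ∈ s, ¬ (r : ℤ) ∣ u z ∧ ∀ τ ∈ s, τ ≠ z → (r : ℤ) ∣ u τ := by
    by_cases h2 : x ∈ H
    · refine ⟨x, by simp [s, h2], hx, fun τ hτ hne => ?_⟩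
      by_contra h3
      rcases hsup τ h3 with h4 | h4
      · exact hne h4
      · simp only [s, Finset.mem_filter, Finset.mem_univ, true_and] at hτ
        rw [h4] at hτ
        exact (hH x).1 h2 hτ
    · have h3 : cbar x ∈ H := (hH _).2 (by rw [cbar_cbar]; exact h2)
      refine ⟨cbar x, by simp [s, h3], by rw [hodd, dvd_neg]; exact hx, fun τ hτ hne => ?_⟩
      by_contra h4
      rcases hsup τ h4 with h5 | h5
      · simp only [s, Finset.mem_filter, Finset.mem_univ, true_and] at hτ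
        rw [h5] at hτ
        exact h2 hτ
      · exact hne h5
  rw [← Finset.add_sum_erase s u hz] at h1
  have h2 : (r : ℤ) ∣ ∑ τ ∈ s.erase z, u τ := Finset.dvd_sum fun τ hτ =>
    hz' τ (Finset.mem_of_mem_erase hτ) (Finset.ne_of_mem_erase hτ)
  apply hzr
  have h3 : u z = - ∑ τ ∈ s.erase z, u τ := by linarith
  rw [h3, dvd_neg]
  exact h2

/-- The slopes `0`, `m / 2`, `m`, where at most two pairs of embeddings have the middle slope. -/
theorem fewEven_of_slopes (hm : 0 < m) (x y : W.K →+* PadicAlgCl p)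
    (h1 : ∀ τ, InPairs x y τ → ‖τ W.π‖ ^ 2 = ((p : ℝ) ^ m)⁻¹)
    (h2 : ∀ τ, ¬ InPairs x y τ → ‖τ W.π‖ = 1 ∨ ‖τ W.π‖ = ((p : ℝ) ^ m)⁻¹)
    (hxy : x = y ∨ OnlyRat x y ∧ (finrank ℚ W.K % 8 = 4 →
      ∀ F : IntermediateField ℚ W.K, finrank ℚ F = 2 → IsCM F)) : FewEven W := by
  classical
  have hp1 : (1 : ℝ) < p := by exact_mod_cast hp.out.one_lt
  have hlogp : 0 < Real.log p := Real.log_pos hp1
  have hm' : (m : ℝ) ≠ 0 := by exact_mod_cast hm.ne'
  let u : (W.K →+* PadicAlgCl p) → ℤ := fun τ =>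
    if InPairs x y τ then 0 else if ‖τ W.π‖ = 1 then -1 else 1
  refine ⟨u, x, y, ⟨m, hm', fun τ => ?_⟩, fun τ => ?_, hxy⟩
  · by_cases h3 : InPairs x y τ
    · have h4 := h1 τ h3
      have h5 : u τ = 0 := if_pos h3
      rw [h5, Int.cast_zero, mul_zero]
      have h6 := congrArg Real.log h4
      rw [Real.log_pow, Real.log_inv, Real.log_pow] at h6
      rw [Real.logb]
      field_simp
      push_cast at h6
      linarith
    · rcases h2 τ h3 with h4 | h4
      · have h5 : u τ = -1 := by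
          simp only [u, if_neg h3, if_pos h4]
        rw [h5, h4, Real.logb_one]
        push_cast
        ring
      · have hlt : ((p : ℝ) ^ m)⁻¹ < 1 := by
          rw [inv_lt_one₀ (pow_pos (by linarith) m)]
          exact one_lt_pow₀ hp1 hm.ne'
        have h5 : u τ = 1 := by
          have h6 : ‖τ W.π‖ ≠ 1 := by rw [h4]; exact hlt.ne
          simp only [u, if_neg h3, if_neg h6]
        rw [h5, h4, Real.logb_inv, Real.logb_pow, Real.logb_self_eq_one hp1]
        push_cast
        ring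
  · constructor
    · intro h3
      by_contra h4
      simp only [u, if_neg h4] at h3
      split_ifs at h3
      · exact absurd h3 (by decide)
      · exact absurd h3 (by decide)
    · intro h3
      simp only [u, if_pos h3]
      exact Even.zero

end

end Pool.Agent.TH776.FS
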